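import Pool.Agent.Lib.MP_5591bc_ag.Pl.SetB

/-! No holomorphic form has constant periods. -/

namespace Pool.Agent.Lib.MP_5591bc_ag.Pl

open Matrix Filter Topology

noncomputable section

/-- the order of vanishing would be `1 / 2`
(`AnalyticAt.exists_eventuallyEq_pow_smul_nonzero_iff`) -/
theorem cst_ord {F : ℂ → ℂ} {b : ℂ} (hF : AnalyticAt ℂ F b)
    (h : ∀ᶠ t in 𝓝 b, (t - b) * deriv F t = F t / 2) : ∀ᶠ t in 𝓝 b, F t = 0 := by
  by_contra c
  obtain ⟨m, G, hG, h0, hm⟩ := hF.exists_eventuallyEq_pow_smul_nonzero_iff.2 c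
  have k : ∀ᶠ t in 𝓝[≠] b, m * G t + (t - b) * deriv G t - G t / 2 = 0 := by
    filter_upwards [self_mem_nhdsWithin, nhdsWithin_le_nhds h, nhdsWithin_le_nhds hm.eventually_nhds,
      nhdsWithin_le_nhds hG.eventually_analyticAt] with t t0 t1 t2 t3
    have d := ((((hasDerivAt_id t).sub_const b).fun_pow m).fun_mul
      t3.differentiableAt.hasDerivAt).deriv
    have e : deriv F t = _ := (Filter.EventuallyEq.deriv_eq t2).trans d
    have n0 : t - b ≠ 0 := sub_ne_zero.2 t0
    rw [e, t2.self_of_nhds] at t1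
    refine mul_left_cancel₀ (pow_ne_zero m n0) ?_
    rcases m with _ | m
    · simp only [id, smul_eq_mul, Nat.cast_zero, pow_zero] at t1 ⊢
      linear_combination t1
    · simp only [id, smul_eq_mul, Nat.add_sub_cancel] at t1 ⊢
      linear_combination t1
  have ct : ContinuousAt (fun t => m * G t + (t - b) * deriv G t - G t / 2) b :=
    ((continuousAt_const.mul hG.continuousAt).add
      ((continuousAt_id.sub continuousAt_const).mul hG.deriv.continuousAt)).sub
      (hG.continuousAt.div_const _)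
  have z := tendsto_nhds_unique_of_eventuallyEq (ct.tendsto.mono_left nhdsWithin_le_nhds)
    tendsto_const_nhds k
  have : ((2 * m : ℕ) : ℂ) = (1 : ℕ) := mul_right_cancel₀ h0 (by
    push_cast; linear_combination 2 * z)
  have := Nat.cast_injective (R := ℂ) this
  omega

theorem cst_det {n : ℕ} {P : ℂ → Matrix (Fin n) (Fin n) ℂ} {t : ℂ}
    (h : ∀ i j, AnalyticAt ℂ (P · i j) t) : AnalyticAt ℂ (fun t => (P t).det) t := by
  simp only [det_apply']
  exact Finset.analyticAt_fun_sum _ fun σ _ =>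
    analyticAt_const.mul (Finset.analyticAt_fun_prod _ fun i _ => h _ _)

theorem cst_inv {n : ℕ} {P : ℂ → Matrix (Fin n) (Fin n) ℂ} {t : ℂ} (h0 : (P t).det ≠ 0)
    (h : ∀ i j, AnalyticAt ℂ (P · i j) t) (i j : Fin n) :
    AnalyticAt ℂ (fun t => (P t)⁻¹ i j) t := by
  simp only [inv_def, Ring.inverse_eq_inv', Matrix.smul_apply, smul_eq_mul, adjugate_apply]
  refine ((cst_det h).inv h0).mul (cst_det fun a b => ?_)
  simp only [updateRow_apply]
  split_ifs
  · exact analyticAt_const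
  · exact h _ _

theorem cst_q {g n : ℕ} {P : Matrix (Fin n) (Fin n) ℂ} {r : Fin g → Fin n}
    (hr : Function.Injective r) (h0 : P.det ≠ 0) (q : Fin g → ℂ) (i : Fin g) :
    ((q ᵥ* P.submatrix r id) ᵥ* P⁻¹) (r i) = q i := by
  have : P.submatrix r id * P⁻¹ = (1 : Matrix (Fin n) (Fin n) ℂ).submatrix r id := by
    rw [← mul_nonsing_inv P h0.isUnit]; rfl
  rw [vecMul_vecMul, this]
  simp [vecMul, dotProduct, one_apply, hr.eq_iff]

theorem cst_geom (g : ℕ) (t b : ℂ) (i : Fin g) :
    (t - b) * ∑ k : Fin g, ksB g t i k * b ^ (k : ℕ) = (t ^ (i : ℕ) - b ^ (i : ℕ)) / 2 := by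
  have e : ∑ k : Fin g, ksB g t i k * b ^ (k : ℕ) =
      ∑ k ∈ Finset.range i, b ^ k * t ^ ((i : ℕ) - 1 - k) / 2 := by
    rw [Finset.sum_congr rfl (g := fun k : Fin g => (fun k : ℕ =>
      if k < i then b ^ k * t ^ ((i : ℕ) - 1 - k) / 2 else 0) k) fun k _ => by
        simp only [ksB, of_apply, Fin.lt_def]; split_ifs <;> ring,
      Fin.sum_univ_eq_sum_range (fun k : ℕ =>
        if k < i then b ^ k * t ^ ((i : ℕ) - 1 - k) / 2 else 0), ← Finset.sum_filter]
    congr 1
    ext k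
    have := i.2
    simp only [Finset.mem_filter, Finset.mem_range]
    omega
  rw [e, ← Finset.sum_div]
  linear_combination -(geom_sum₂_mul b t i) / 2

/-- `q t i = (u ᵥ* (P t)⁻¹) (r i)` is analytic on a ball around `s` and `u = q t ᵥ* Ω t`. The
derivative gives `∑ q t i * t ^ i = 0` and `q' = - q ᵥ* ksB`. For `b` in the ball
`F t = ∑ q t i * b ^ i` has `(t - b) F' = F / 2` (`geom_sum₂_mul`), so `F = 0` near `b`, so on the
ball; a polynomial that vanishes on a ball is zero. -/
theorem cst {g n : ℕ} {P : ℂ → Matrix (Fin n) (Fin n) ℂ} {r : Fin g → Fin n}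
    (hr : Function.Injective r) {η : ℂ → Fin n → ℂ} {s : ℂ}
    (h : ∀ᶠ t in 𝓝 s, (P t).det ≠ 0 ∧ (∀ i j, AnalyticAt ℂ (P · i j) t) ∧
      (¬ ∃ q, η t = q ᵥ* (P t).submatrix r id) ∧ ∀ i j, HasDerivAt (P · (r i) j)
        ((ksB g t * (P t).submatrix r id + vecMulVec (fun i : Fin g => t ^ (i : ℕ)) (η t)) i j) t)
    (u : Fin n → ℂ) (hu : ∀ᶠ t in 𝓝 s, ∃ q, u = q ᵥ* (P t).submatrix r id) : u = 0 := by
  obtain ⟨ε, ε0, hU⟩ := Metric.eventually_nhds_iff_ball.1 (h.and hu)
  let q : ℂ → Fin g → ℂ := fun t i => (u ᵥ* (P t)⁻¹) (r i)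
  have qa : ∀ t ∈ Metric.ball s ε, ∀ i, AnalyticAt ℂ (q · i) t := fun t ht i => by
    simp only [q, vecMul, dotProduct]
    exact Finset.analyticAt_fun_sum _ fun k _ =>
      analyticAt_const.mul (cst_inv (hU t ht).1.1 (hU t ht).1.2.1 k (r i))
  have qu : ∀ t ∈ Metric.ball s ε, u = q t ᵥ* (P t).submatrix r id := fun t ht => by
    obtain ⟨q', e⟩ := (hU t ht).2
    have : q t = q' := funext fun i => by
      simp only [q]; rw [e]; exact cst_q hr (hU t ht).1.1 q' i
    rw [this, ← e]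
  have de : ∀ t ∈ Metric.ball s ε, ∑ i, q t i * t ^ (i : ℕ) = 0 ∧
      ∀ i, deriv (q · i) t = -(q t ᵥ* ksB g t) i := fun t ht => by
    have d0 : ((fun i => deriv (q · i) t) + q t ᵥ* ksB g t) ᵥ* (P t).submatrix r id +
        (∑ i, q t i * t ^ (i : ℕ)) • η t = 0 := by
      funext j
      have d1 := HasDerivAt.fun_sum (u := Finset.univ) fun i _ =>
        (qa t ht i).differentiableAt.hasDerivAt.fun_mul ((hU t ht).1.2.2.2 i j)
      have d2 : HasDerivAt (fun t => ∑ i, q t i * P t (r i) j) 0 t :=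
        (hasDerivAt_const t (u j)).congr_of_eventuallyEq (by
          filter_upwards [Metric.isOpen_ball.mem_nhds ht] with x hx
          exact (congrFun (qu x hx) j).symm)
      rw [Pi.zero_apply, ← d1.unique d2, add_vecMul, vecMul_vecMul]
      simp only [Pi.add_apply, Pi.smul_apply, smul_eq_mul, Matrix.add_apply, vecMulVec_apply,
        vecMul, dotProduct, Finset.sum_mul, ← Finset.sum_add_distrib, submatrix_apply, id]
      exact Finset.sum_congr rfl fun i _ => by ring
    have c0 : ∑ i, q t i * t ^ (i : ℕ) = 0 := by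
      by_contra c
      refine (hU t ht).1.2.2.1 ⟨-(∑ i, q t i * t ^ (i : ℕ))⁻¹ •
        ((fun i => deriv (q · i) t) + q t ᵥ* ksB g t), ?_⟩
      rw [smul_vecMul, eq_neg_of_add_eq_zero_left d0, neg_smul, smul_neg, neg_neg, smul_smul,
        inv_mul_cancel₀ c, one_smul]
    refine ⟨c0, fun i => eq_neg_of_add_eq_zero_left ?_⟩
    rw [c0, zero_smul, add_zero] at d0
    have := cst_q hr (hU t ht).1.1 ((fun i => deriv (q · i) t) + q t ᵥ* ksB g t) i
    rw [d0, zero_vecMul] at this
    exact this.symm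
  have s0 := Metric.mem_ball_self (x := s) ε0
  have z : ∀ b ∈ Metric.ball s ε, ∑ i, q s i * b ^ (i : ℕ) = 0 := fun b hb => by
    have an : AnalyticOnNhd ℂ (fun t => ∑ i, q t i * b ^ (i : ℕ)) (Metric.ball s ε) := fun t ht =>
      Finset.analyticAt_fun_sum _ fun i _ => (qa t ht i).mul analyticAt_const
    refine an.eqOn_zero_of_preconnected_of_eventuallyEq_zero (convex_ball s ε).isPreconnected hb
      (cst_ord (an b hb) ?_) s0
    filter_upwards [Metric.isOpen_ball.mem_nhds hb] with t ht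
    rw [(HasDerivAt.fun_sum (u := Finset.univ) fun i _ =>
      (qa t ht i).differentiableAt.hasDerivAt.mul_const (b ^ (i : ℕ))).deriv]
    have e : ∑ k, deriv (q · k) t * b ^ (k : ℕ) =
        -∑ i, q t i * ∑ k : Fin g, ksB g t i k * b ^ (k : ℕ) := by
      simp only [(de t ht).2, vecMul, dotProduct, Finset.mul_sum, neg_mul, Finset.sum_neg_distrib,
        Finset.sum_mul, mul_assoc]
      rw [Finset.sum_comm]
    have e2 : ∑ i, q t i * ((t - b) * ∑ k : Fin g, ksB g t i k * b ^ (k : ℕ)) =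
        (∑ i, q t i * t ^ (i : ℕ) - ∑ i, q t i * b ^ (i : ℕ)) / 2 := by
      rw [← Finset.sum_sub_distrib, Finset.sum_div]
      exact Finset.sum_congr rfl fun i _ => by rw [cst_geom]; ring
    rw [(de t ht).1] at e2
    rw [e, mul_neg, Finset.mul_sum]
    simp only [mul_left_comm (t - b)]
    rw [e2]
    ring
  have inf : (Metric.ball s ε).Infinite := infinite_of_mem_nhds s (Metric.ball_mem_nhds s ε0)
  have q0 : q s = 0 := eq_zero_of_forall_index_sum_mul_pow_eq_zero
    (f := fun j : Fin g => (inf.natEmbedding _ j : ℂ))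
    (Subtype.val_injective.comp ((inf.natEmbedding _).injective.comp Fin.val_injective))
    fun j => z _ (inf.natEmbedding _ j).2
  rw [qu s s0, q0, zero_vecMul]

end

end Pool.Agent.Lib.MP_5591bc_ag.Pl
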