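import Pool.Agent.Lib.MP_5591bc_ag.A.DefM

/-! Points outside the Hodge locus. -/

namespace Pool.Agent.Lib.MP_5591bc_ag.Pl

open Filter Topology A

/-- `x` is outside the Hodge locus: the Mumford-Tate group at `x` contains the Mumford-Tate groups
at all points near `x` (the lattices are identified by parallel transport), so it is the generic
one. The rows of `Ω t` are the periods of the holomorphic forms. -/
def HodgeGen {σ ι ν : Type*} [Fintype ν] [DecidableEq ν] (Ω : (σ → ℂ) → Matrix ι ν ℂ)
    (x : σ → ℂ) : Prop :=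
  ∀ᶠ t in 𝓝 x, MTG (Ω t) ⊆ MTG (Ω x)

end Pool.Agent.Lib.MP_5591bc_ag.Pl
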