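import Pool.Agent.Lib.MP_5591bc_ag.Pl.SetB
import Pool.Agent.Lib.MP_5591bc_ag.F.Per
import Pool.Agent.Lib.MP_5591bc_ag.F.Fam

/-! The derivative of the period map along a coordinate has rank one. -/

namespace Pool.Agent.Lib.MP_5591bc_ag.Pl

open Polynomial Finset Filter Topology M F

noncomputable section

variable {σ K : Type*} [Fintype σ] [DecidableEq σ] [Field K] {f₀ : K[X]}

theorem fam_cd (l : σ) : (X - C (MvPolynomial.X l)) * cd l (fam σ f₀) = -fam σ f₀ := by
  have h1 : cd l (f₀.map (MvPolynomial.C : K →+* MvPolynomial σ K)) = 0 := by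
    ext1 i
    rw [coeff_cd, coeff_map, MvPolynomial.pderiv_C, coeff_zero]
  have h2 : cd l (∏ j ∈ univ.erase l, (X - C (MvPolynomial.X j)) : (MvPolynomial σ K)[X]) = 0 := by
    refine prod_induction _ (fun p => cd l p = 0) (fun p q hp hq => ?_) (by simp) fun j hj => ?_
    · rw [Derivation.leibniz, hp, hq, smul_zero, smul_zero, add_zero]
    · rw [map_sub, cd_X, cd_C, MvPolynomial.pderiv_X_of_ne (mem_erase.1 hj).1]
      simp
  have h3 : cd l (X - C (MvPolynomial.X l) : (MvPolynomial σ K)[X]) = -1 := by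
    rw [map_sub, cd_X, cd_C, MvPolynomial.pderiv_X_self]
    simp
  rw [fam, ← mul_prod_erase _ _ (mem_univ l), Derivation.leibniz, Derivation.leibniz, h1, h2, h3]
  simp only [smul_eq_mul]
  ring

variable [Algebra K ℂ] {n : ℕ} {U : Set (σ → ℂ)} {P : (σ → ℂ) → Matrix (Fin n) (Fin n) ℂ}
  {s : σ → ℂ}

/-- `per_core` with `a = 1` for both rows, and `fam_cd` under the integral -/
theorem ks (hP : IsPerM (ev (fam σ f₀)) U P) (hs : s ∈ U) (l : σ) {i i' : Fin n}
    (e : (i' : ℕ) = i + 1) (j : Fin n) : fderiv ℂ (fun t => P t i' j) s (Pi.single l 1) =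
      s l * fderiv ℂ (fun t => P t i j) s (Pi.single l 1) + P s i j / 2 := by
  obtain ⟨V, hV, x, y, h, k⟩ := (hP s hs).2 j
  have c1 := h.1.continuous
  have c2 := h.1.continuous_deriv le_rfl
  have hs' := mem_of_mem_nhds hV
  have c3 : ContinuousOn (y s) (Set.Icc 0 1) :=
    h.2.2.1.comp (f := fun u => (s, u)) (by fun_prop) fun _ hu => ⟨hs', hu⟩
  have c4 : Continuous fun u => ev (cd l (fam σ f₀)) s (x u) :=
    (continuous_iff_continuousAt.2 fun z => (per_dx s z _).continuousAt).comp c1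
  have h4 := (h.2.2.2 s hs').2
  have d : ∀ a : Fin n, fderiv ℂ (fun t => P t a j) s (Pi.single l 1) = ∫ u in (0 : ℝ)..1,
      -(x u ^ (a : ℕ) * deriv x u * ev (cd l (fam σ f₀)) s (x u)) / (2 * y s u ^ 3) := fun a => by
    have := (per_core (a := 1) (c := fun u => x u ^ (a : ℕ) * deriv x u) two_pos h hV
      ((c1.pow (a : ℕ)).mul c2)).2 l
    simp only [pow_one, Nat.cast_one, one_mul, Nat.cast_ofNat, Nat.reduceAdd] at this
    have e' : (fun t => P t a j) =ᶠ[𝓝 s]
        fun t => ∫ u in (0 : ℝ)..1, x u ^ (a : ℕ) * deriv x u / y t u :=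
      mem_of_superset hV fun t ht => k t ht a
    rw [← this, e'.fderiv_eq]
  rw [d, d, k s hs' i, ← intervalIntegral.integral_const_mul, ← intervalIntegral.integral_div,
    ← intervalIntegral.integral_add]
  · refine intervalIntegral.integral_congr fun u hu => ?_
    rw [Set.uIcc_of_le zero_le_one] at hu
    obtain ⟨h5, h6⟩ := h4 u hu
    have q := congrArg (fun p => ev p s (x u)) (fam_cd (f₀ := f₀) l)
    simp only [ev, eval₂_mul, eval₂_sub, eval₂_X, eval₂_C, eval₂_neg, RingHom.coe_coe,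
      MvPolynomial.aeval_X] at q h6 ⊢
    rw [← h6] at q
    rw [e]
    field_simp
    linear_combination (-(x u ^ (i : ℕ) * deriv x u)) * q
  · exact (((((c1.pow _).mul c2).mul c4).neg.continuousOn.div (continuousOn_const.mul (c3.pow _))
      fun u hu => mul_ne_zero two_ne_zero (pow_ne_zero _ (h4 u hu).1)).intervalIntegrable_of_Icc
        zero_le_one).const_mul _
  · exact ((((c1.pow _).mul c2).continuousOn.div c3 fun u hu =>
      (h4 u hu).1).intervalIntegrable_of_Icc zero_le_one).div_const _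

/-- induction on `i` -/
theorem ks_sum (hP : IsPerM (ev (fam σ f₀)) U P) (hs : s ∈ U) (l : σ) {g : ℕ} {r : Fin g → Fin n}
    (hr : ∀ i, (r i : ℕ) = i) {z : Fin n} (hz : (z : ℕ) = 0) (i : Fin g) (j : Fin n) :
    fderiv ℂ (fun t => P t (r i) j) s (Pi.single l 1) = (ksB g (s l) * (P s).submatrix r id +
      Matrix.vecMulVec (fun i : Fin g => s l ^ (i : ℕ))
        fun j => fderiv ℂ (fun t => P t z j) s (Pi.single l 1)) i j := by
  simp only [Matrix.add_apply, Matrix.mul_apply, Matrix.vecMulVec_apply, Matrix.submatrix_apply,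
    id, ksB, Matrix.of_apply]
  obtain ⟨i, hi⟩ := i
  induction i with
  | zero =>
    rw [show r ⟨0, hi⟩ = z from Fin.ext (by rw [hr, hz])]
    simp [Fin.lt_def]
  | succ i ih =>
    have hi' : i < g := by omega
    rw [ks hP hs l (i := r ⟨i, hi'⟩) (by rw [hr, hr]), ih hi', mul_add, mul_sum, pow_succ']
    have q : ∀ k : Fin g, (if k < (⟨i + 1, hi⟩ : Fin g) then s l ^ (i + 1 - 1 - k) / 2 else 0) *
        P s (r k) j = s l * ((if k < (⟨i, hi'⟩ : Fin g) then s l ^ (i - 1 - k) / 2 else 0) *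
          P s (r k) j) + if k = ⟨i, hi'⟩ then P s (r k) j / 2 else 0 := fun k => by
      simp only [Fin.lt_def, Fin.ext_iff]
      rcases lt_trichotomy (k : ℕ) i with h | h | h
      · rw [if_pos (by omega), if_pos h, if_neg h.ne,
          show i + 1 - 1 - k = i - 1 - k + 1 by omega, pow_succ]
        ring
      · rw [if_pos (by omega), if_neg (by omega), if_pos h, show i + 1 - 1 - k = 0 by omega]
        ring
      · rw [if_neg (by omega), if_neg (by omega), if_neg h.ne']
        ring
    simp only [q, sum_add_distrib, sum_ite_eq', mem_univ, if_true]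
    ring

end

end Pool.Agent.Lib.MP_5591bc_ag.Pl
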