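import Pool.Agent.Lib.MP_5591bc_ag.Pl.IsoA
import Pool.Agent.Lib.MP_5591bc_ag.Pl.Ks
import Pool.Agent.Lib.MP_5591bc_ag.F.Mon
import Pool.Agent.Lib.MP_5591bc_ag.A.DefM

/-! The period map is an immersion. -/

namespace Pool.Agent.Lib.MP_5591bc_ag.Pl

open Polynomial Finset Filter Topology M F A

noncomputable section

variable {σ K : Type*} [Fintype σ] [DecidableEq σ] [Field K] [Algebra K ℂ] {f₀ : K[X]} {g n : ℕ}
  {T : MvPolynomial σ K} {W : σ → Matrix (Fin n) (Fin n) (MvPolynomial σ K)}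
  {D : MvPolynomial σ ℂ} {U : Set (σ → ℂ)} {P : (σ → ℂ) → Matrix (Fin n) (Fin n) ℂ} {s : σ → ℂ}
  {r : Fin g → Fin n}

omit [Fintype σ] [DecidableEq σ] in
theorem iso_two (hs : f₀.Separable) (h2 : 2 ≤ f₀.natDegree) :
    ∃ a b : ℂ, a ≠ b ∧ aeval a f₀ = 0 ∧ aeval b f₀ = 0 := by
  have := card_rootSet_eq_natDegree (K := ℂ) hs (IsAlgClosed.splits _)
  obtain ⟨a, b, ab⟩ := Fintype.exists_pair_of_one_lt_card (α := f₀.rootSet ℂ) (by omega)
  exact ⟨a, b, fun e => ab (Subtype.ext e), aeval_eq_zero_of_mem_rootSet a.2,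
    aeval_eq_zero_of_mem_rootSet b.2⟩

theorem iso_dir {F : (σ → ℂ) → ℂ} (s c : σ → ℂ) :
    fderiv ℂ F s c = ∑ l, c l * fderiv ℂ F s (Pi.single l 1) := by
  conv_lhs => rw [← Finset.univ_sum_single c, map_sum]
  refine Finset.sum_congr rfl fun l _ => ?_
  rw [← smul_eq_mul, ← map_smul, ← Pi.single_smul, smul_eq_mul, mul_one]

theorem iso_col (hr : ∀ i, (r i : ℕ) = i) (hP : FundM T W U P) (sU : s ∈ U)
    {c : σ → ℂ} {B : Matrix (Fin g) (Fin g) ℂ}
    (e : ∀ i j, fderiv ℂ (fun t => P t (r i) j) s c = ∑ k, B i k * P s (r k) j) (i : Fin g)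
    {a : Fin n} (ha : g ≤ a) : ∑ l, c l * MvPolynomial.aeval s (W l (r i) a) = 0 := by
  have key := Matrix.eq_zero_of_vecMul_eq_zero (hP s sU).1
    (v := fun a => ∑ l, c l * MvPolynomial.aeval s (W l (r i) a) -
      MvPolynomial.aeval s T * ∑ k, if r k = a then B i k else 0) (by
    ext j
    have h1 : MvPolynomial.aeval s T * ∑ k, B i k * P s (r k) j =
        ∑ l, c l * ∑ a, MvPolynomial.aeval s (W l (r i) a) * P s a j := by
      rw [← e, iso_dir, mul_sum]
      exact sum_congr rfl fun l _ => by rw [← ((hP s sU).2 (r i) j).2 l]; ring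
    have h2 : ∑ a, (∑ k, if r k = a then B i k else 0) * P s a j = ∑ k, B i k * P s (r k) j := by
      simp only [sum_mul, ite_mul, zero_mul]
      rw [sum_comm]
      simp
    simp only [Matrix.vecMul, dotProduct, sub_mul, sum_sub_distrib, mul_assoc, ← mul_sum, h2, h1,
      Pi.zero_apply]
    simp only [sum_mul, mul_sum, mul_assoc]
    rw [sum_comm, sub_self])
  have := congrFun key a
  rwa [sum_eq_zero (s := univ) (f := fun k => if r k = a then B i k else 0) fun k _ =>
    if_neg fun e => by have := hr k; have := k.2; rw [e] at *; omega, mul_zero, sub_zero] at this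

/-- `c = ∑ c l • Pi.single l 1`. As `det (P s) ≠ 0`, `∑ l, c l * W l (r i) k (s) = 0` for `g ≤ k`.
Map `h.pf l (r i)` by `aeval s`, sum with the weights `c l`, and apply `iso_alg` to
`R = - T(s) ∑ c l * (cd l f)(s)` at two roots of `f₀` (`fam_cd`: `(X - s l) * (cd l f)(s) = - p`);
then evaluate `R = 0` at `s l`. -/
theorem iso_inf (h : Fm (fam σ f₀) T W D) (hs : f₀.Separable) (h2 : 2 ≤ f₀.natDegree)
    (hn : n = 2 * g) (hr : ∀ i, (r i : ℕ) = i) (hP : FundM T W U P) (sU : s ∈ U)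
    (s0 : MvPolynomial.eval s D ≠ 0) (s1 : Function.Injective s) (s2 : ∀ l, aeval (s l) f₀ ≠ 0)
    {c : σ → ℂ} {B : Matrix (Fin g) (Fin g) ℂ}
    (e : ∀ i j, fderiv ℂ (fun t => P t (r i) j) s c = ∑ k, B i k * P s (r k) j) : c = 0 := by
  obtain ⟨τ0, p, ps, pn, pe⟩ := h.ok s s0
  obtain ⟨φ, hφ⟩ : ∃ φ : MvPolynomial σ K →+* ℂ,
    φ = (MvPolynomial.aeval s : MvPolynomial σ K →ₐ[K] ℂ) := ⟨_, rfl⟩
  have φa : ∀ x, φ x = MvPolynomial.aeval s x := fun x => by rw [hφ]; rfl
  have pf : (fam σ f₀).map φ = p := Polynomial.funext fun z => by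
    rw [eval_map, hφ]
    exact congrFun pe z
  have pz : ∀ z, p.eval z = aeval z f₀ * ∏ l, (z - s l) := fun z =>
    (congrFun pe z).symm.trans (ev_fam f₀ s z)
  obtain ⟨d, hd⟩ : ∃ d : σ → ℂ[X], d = fun l => (cd l (fam σ f₀)).map φ := ⟨_, rfl⟩
  have pd : ∀ l, (X - C (s l)) * d l = -p := fun l => by
    have := congrArg (Polynomial.map φ) (fam_cd (f₀ := f₀) l)
    rw [Polynomial.map_mul, Polynomial.map_neg, pf, Polynomial.map_sub, map_X, map_C, φa,
      MvPolynomial.aeval_X] at this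
    rw [hd, this]
  have dz : ∀ l z, p.eval z = 0 → z ≠ s l → (d l).eval z = 0 := fun l z hz zl => by
    have := congrArg (eval z) (pd l)
    simpa [hz, sub_eq_zero, zl] using this
  have dn : ∀ l, (d l).natDegree ≤ 2 * g := fun l => by
    have := congrArg natDegree (pd l)
    have d0 : d l ≠ 0 := fun e => ps.ne_zero (by simpa [e] using pd l)
    rw [natDegree_mul (X_sub_C_ne_zero _) d0, natDegree_X_sub_C, natDegree_neg] at this
    omega
  obtain ⟨a, b, ab, ha, hb⟩ := iso_two hs h2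
  have pa : p.eval a = 0 := by rw [pz, ha, zero_mul]
  have pb : p.eval b = 0 := by rw [pz, hb, zero_mul]
  have g0 : 0 < g := by
    by_contra g0
    obtain ⟨u, u0, v, rfl⟩ := natDegree_eq_one.1 (show p.natDegree = 1 by omega)
    simp only [eval_add, eval_mul, eval_C, eval_X] at pa pb
    exact ab (mul_left_cancel₀ u0 (by linear_combination pa - pb))
  obtain ⟨R, hR⟩ : ∃ R : ℂ[X], R = ∑ l, C (-(φ T * c l)) * d l := ⟨_, rfl⟩
  have Rz : ∀ z, aeval z f₀ = 0 → R.eval z = 0 := fun z hz => by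
    rw [hR, eval_finsetSum]
    refine sum_eq_zero fun l _ => ?_
    rw [eval_mul, dz l z (by rw [pz, hz, zero_mul]) fun e => s2 l (e ▸ hz), mul_zero]
  have key : ∀ i < g, ∃ q w : ℂ[X], w.degree < g ∧
      X ^ i * R = 2 * derivative q * p - q * derivative p + p * w := fun i hi => by
    choose q hq using fun l => h.pf l (r ⟨i, hi⟩)
    refine ⟨∑ l, C (c l) * (q l).map φ,
      ∑ j : Fin n, C (2 * ∑ l, c l * φ (W l (r ⟨i, hi⟩) j)) * X ^ (j : ℕ), ?_, ?_⟩
    · refine (degree_sum_le _ _).trans_lt ((Finset.sup_lt_iff (WithBot.bot_lt_coe _)).2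
        fun j _ => ?_)
      by_cases hj : g ≤ j
      · simp only [φa, iso_col hr hP sU e ⟨i, hi⟩ hj, mul_zero, C_0, zero_mul, degree_zero]
        exact WithBot.bot_lt_coe _
      · exact (degree_C_mul_X_pow_le _ _).trans_lt (by exact_mod_cast not_le.1 hj)
    · have hl : ∀ l, X ^ i * (C (-φ T) * d l) = 2 * derivative ((q l).map φ) * p -
          (q l).map φ * derivative p + p * (2 * ∑ j : Fin n,
            C (φ (W l (r ⟨i, hi⟩) j)) * X ^ (j : ℕ)) := fun l => by
        have := congrArg (Polynomial.map φ) (hq l)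
        simp only [tw, hr, Derivation.leibniz_pow, cd_X, smul_zero, Polynomial.map_mul,
          Polynomial.map_add, Polynomial.map_sub, Polynomial.map_pow, Polynomial.map_sum, map_C,
          map_X, Polynomial.map_zero, ← derivative_map, pf, Nat.cast_ofNat,
          Nat.cast_one, Polynomial.map_ofNat, Polynomial.map_one] at this
        rw [hd, C_neg]
        linear_combination this
      have h3 : ∑ j : Fin n, C (2 * ∑ l, c l * φ (W l (r ⟨i, hi⟩) j)) * X ^ (j : ℕ) =
          ∑ l, C (c l) * (2 * ∑ j : Fin n, C (φ (W l (r ⟨i, hi⟩) j)) * X ^ (j : ℕ)) := by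
        simp only [C_mul, map_sum, mul_sum, sum_mul, map_ofNat]
        rw [sum_comm]
        exact sum_congr rfl fun l _ => sum_congr rfl fun j _ => by ring
      rw [h3, hR, derivative_sum, mul_sum, mul_sum, sum_mul, sum_mul, mul_sum, ← sum_sub_distrib,
        ← sum_add_distrib]
      refine sum_congr rfl fun l _ => ?_
      rw [derivative_C_mul, C_neg, C_mul]
      have := hl l
      rw [C_neg] at this
      linear_combination C (c l) * this
  choose! q w hw hq using key
  have R0 := iso_alg g0 ps (by omega) (R := R) (hR ▸ natDegree_sum_le_of_forall_le _ _ fun l _ =>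
    (natDegree_C_mul_le _ _).trans (dn l)) q w hw hq ab ⟨pa, Rz a ha⟩ ⟨pb, Rz b hb⟩
  ext l
  have pl : p.eval (s l) = 0 := by rw [pz, prod_eq_zero (mem_univ l) (sub_self _), mul_zero]
  have d1 : (d l).eval (s l) ≠ 0 := fun e => by
    have := congrArg (fun x => eval (s l) (derivative x)) (pd l)
    refine ps.aeval_derivative_ne_zero (x := s l) pl ?_
    simpa [e] using this
  have := congrArg (eval (s l)) (hR.symm.trans R0)
  rw [eval_finsetSum, sum_eq_single l (fun m _ ml => by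
    rw [eval_mul, dz m _ pl fun e => ml (s1 e).symm, mul_zero]) (by simp)] at this
  rw [eval_mul, eval_C, eval_zero, φa] at this
  simpa [d1, τ0] using this

/-- `φ t i k = if k < g then 0 else (P t * (P s)⁻¹) (r i) k` has an injective derivative at `s`
(`HasFDerivAt.eventually_ne`, `LinearMap.exists_antilipschitzWith`) -/
theorem iso_fam (h : Fm (fam σ f₀) T W D) (hs : f₀.Separable) (h2 : 2 ≤ f₀.natDegree)
    (hn : n = 2 * g) (hr : ∀ i, (r i : ℕ) = i) (hP : FundM T W U P) (sU : s ∈ U)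
    (s0 : MvPolynomial.eval s D ≠ 0) (s1 : Function.Injective s) (s2 : ∀ l, aeval (s l) f₀ ≠ 0) :
    Iso (fun t => (P t).submatrix r id) s := by
  have a := fun i j => (((hP s sU).2 i j).1).differentiableAt.hasFDerivAt
  have hu : IsUnit (P s).det := (hP s sU).1.isUnit
  have hri : Function.Injective r := fun i j e => Fin.ext (by rw [← hr, e, hr])
  have hF : HasFDerivAt (fun t (x : Fin g × {k : Fin n // g ≤ k}) => (P t * (P s)⁻¹) (r x.1) x.2)
      (ContinuousLinearMap.pi fun x => ∑ j, (P s)⁻¹ j x.2 • fderiv ℂ (fun t => P t (r x.1) j) s)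
      s := hasFDerivAt_pi.2 fun x => by
    simp only [Matrix.mul_apply]
    exact HasFDerivAt.fun_sum fun j _ => (a (r x.1) j).mul_const _
  obtain ⟨F', hF', hF⟩ : ∃ F', F' = _ ∧ HasFDerivAt _ F' s := ⟨_, rfl, hF⟩
  obtain ⟨κ, -, hκ⟩ := LinearMap.exists_antilipschitzWith F'.toLinearMap (by
    refine LinearMap.ker_eq_bot'.2 fun c hc => ?_
    obtain ⟨E, hE⟩ : ∃ E : Matrix (Fin g) (Fin n) ℂ,
      E = .of fun i j => fderiv ℂ (fun t => P t (r i) j) s c := ⟨_, rfl⟩
    refine iso_inf h hs h2 hn hr hP sU s0 s1 s2 (B := .of fun i k => (E * (P s)⁻¹) i (r k))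
      fun i j => ?_
    have e1 : fderiv ℂ (fun t => P t (r i) j) s c = (E * (P s)⁻¹ * P s) i j := by
      rw [Matrix.nonsing_inv_mul_cancel_right _ _ hu, hE]
      rfl
    rw [e1, Matrix.mul_apply]
    refine (Fintype.sum_of_injective r hri _ _ (fun k hk => ?_) fun _ => rfl).symm
    have gk : g ≤ k := not_lt.1 fun gk => hk ⟨⟨k, gk⟩, Fin.ext (hr _)⟩
    have := congrFun hc (i, ⟨k, gk⟩)
    rw [hF'] at this
    refine mul_eq_zero_of_left ?_ _
    simpa [Matrix.mul_apply, hE, mul_comm] using this)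
  filter_upwards [hF.eventually_ne (c := 0) ⟨κ, hκ⟩] with t ht ⟨A, hA⟩
  refine ht (funext fun x => ?_)
  have e1 : (P t * (P s)⁻¹).submatrix r id = A * (P s * (P s)⁻¹).submatrix r id := by
    rw [Matrix.submatrix_mul _ _ r id id Function.bijective_id,
      Matrix.submatrix_mul _ _ r id id Function.bijective_id, hA, Matrix.mul_assoc]
  have := congrFun (congrFun e1 x.1) x.2
  rw [Matrix.mul_nonsing_inv _ hu, Matrix.mul_apply] at this
  refine this.trans (sum_eq_zero fun k _ =>
    mul_eq_zero_of_right _ (Matrix.one_apply_ne fun e => ?_))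
  have := hr k
  have := k.2
  have := x.2.2
  have := congrArg Fin.val e
  simp only [id] at this
  omega

end

end Pool.Agent.Lib.MP_5591bc_ag.Pl
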