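import Pool.Agent.Lib.MP_5591bc_ag.Pl.Gen
import Pool.Agent.Lib.MP_5591bc_ag.Pl.Iso
import Pool.Agent.Lib.MP_5591bc_ag.Pl.Cst
import Pool.Agent.Lib.MP_5591bc_ag.Pl.DefH

/-! Outside the Hodge locus the Mumford-Tate group contains the symplectic group. -/

namespace Pool.Agent.Lib.MP_5591bc_ag.Pl

open Matrix Polynomial Filter Topology M F A

noncomputable section

variable {σ K : Type*} [Fintype σ] [DecidableEq σ] [Field K] [Algebra K ℂ] {f₀ : K[X]} {g n : ℕ}
  {T : MvPolynomial σ K} {W : σ → Matrix (Fin n) (Fin n) (MvPolynomial σ K)}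
  {D : MvPolynomial σ ℂ} {U : Set (σ → ℂ)} {P : (σ → ℂ) → Matrix (Fin n) (Fin n) ℂ} {s : σ → ℂ}
  {r : Fin g → Fin n}

theorem big_fam (h : Fm (fam σ f₀) T W D) (hs : f₀.Separable) (h2 : 2 ≤ f₀.natDegree)
    (hn : n = 2 * g) (g0 : 0 < g) (hr : ∀ i, (r i : ℕ) = i) (hP : IsPerM (ev (fam σ f₀)) U P)
    {J : Matrix (Fin n) (Fin n) ℝ} (hJ : Jᵀ = -J)
    (hs' : ∀ᶠ t in 𝓝 s, t ∈ U ∧ MvPolynomial.eval t D ≠ 0 ∧ Function.Injective t ∧
      (∀ l, aeval (t l) f₀ ≠ 0) ∧ Rie J ((P t).submatrix r id)) (l : σ)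
    (hG : HodgeGen (fun t => (P t).submatrix r id) s) : BigMT J ((P s).submatrix r id) := by
  intro X hX G ⟨hQ, hh⟩
  have hF := per_fund hP h.pf
  have es : Function.update s l (s l) = s := Function.update_eq_self l s
  have ct : Tendsto (Function.update s l) (𝓝 (s l)) (𝓝 s) := by
    simpa only [ContinuousAt, es] using (hasDerivAt_update s l (s l)).continuousAt
  let z : Fin n := ⟨0, by omega⟩
  let η : ℂ → Fin n → ℂ := fun τ j =>
    fderiv ℂ (fun t => P t z j) (Function.update s l τ) (Pi.single l 1)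
  have ri : Function.Injective r := fun a b e => Fin.ext (by rw [← hr a, ← hr b, e])
  have k : ∀ᶠ τ in 𝓝 (s l), (P (Function.update s l τ)).det ≠ 0 ∧
      (∀ i j, AnalyticAt ℂ (fun τ => P (Function.update s l τ) i j) τ) ∧
      (¬ ∃ q, η τ = q ᵥ* (P (Function.update s l τ)).submatrix r id) ∧
      ∀ i j, HasDerivAt (fun τ => P (Function.update s l τ) (r i) j)
        ((ksB g τ * (P (Function.update s l τ)).submatrix r id +
          vecMulVec (fun i : Fin g => τ ^ (i : ℕ)) (η τ)) i j) τ := by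
    filter_upwards [ct.eventually hs'] with τ ⟨m, t0, t1, t2, _⟩
    have e := ks_sum hP m l hr (z := z) rfl
    rw [Function.update_self] at e
    refine ⟨(hF _ m).1, fun i j => ((hF _ m).2 i j).1.comp ?_, fun ⟨q, hq⟩ => ?_, fun i j => ?_⟩
    · exact analyticAt_pi_iff.2 fun a => by
        by_cases e : a = l
        · subst e
          simp only [Function.update_self]
          exact analyticAt_id
        · simpa only [Function.update_of_ne e] using analyticAt_const
    · have := iso_inf h hs h2 hn hr hF m t0 t1 t2 (c := Pi.single l 1)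
        (B := ksB g τ + vecMulVec (fun i : Fin g => τ ^ (i : ℕ)) q) fun i j => by
          rw [e i j]
          change (_ + vecMulVec _ (η τ)) i j = _
          rw [hq, ← vecMulVec_mul, ← Matrix.add_mul]
          rfl
      simpa using congrFun this l
    · exact e i j ▸ ((hF _ m).2 (r i) j).1.differentiableAt.hasFDerivAt.comp_hasDerivAt τ
        (hasDerivAt_update s l τ)
  refine gen (Ω := fun τ => (P (Function.update s l τ)).submatrix r id) (s := s l) hJ
    (by simpa using hn) hQ (B := ksB g) (a := fun τ i => τ ^ (i : ℕ)) (η := η) ?_ (by fun_prop) ?_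
    ?_ k.self_of_nhds.2.2.1 (cst ri k) X hX
  · refine continuousAt_pi.2 fun i => continuousAt_pi.2 fun j => ?_
    simp only [ksB, of_apply]
    split_ifs <;> fun_prop
  · refine continuousAt_pi.2 fun j => ?_
    have := (((hF s hs'.self_of_nhds.1).2 z j).1.fderiv.continuousAt.clm_apply
      (continuousAt_const (y := (Pi.single l 1 : σ → ℂ))))
    exact ContinuousAt.comp_of_eq this (hasDerivAt_update s l (s l)).continuousAt es
  · filter_upwards [k, ct.eventually hs', ct.eventually hG] with τ k1 k2 k3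
    refine ⟨k2.2.2.2.2, qg_tor hQ (prj_sq k2.2.2.2.2) fun w w0 =>
      k3 (prj_mtg k2.2.2.2.2 w0) G ⟨hQ, hh⟩, fun e => ?_, k1.2.2.2⟩
    simpa using congrFun e ⟨0, g0⟩

end

end Pool.Agent.Lib.MP_5591bc_ag.Pl
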