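import Pool.Agent.Lib.MP_5591bc_ag.Pl.Grp

/-! Maximal subspaces of transvection vectors. -/

namespace Pool.Agent.Lib.MP_5591bc_ag.Pl

open Matrix A Filter Topology

noncomputable section

variable {ν : Type*} [Fintype ν] [DecidableEq ν] {J : Matrix ν ν ℂ} {G : Set (Matrix ν ν ℂ)}

lemma cn_key (g : Matrix ν ν ℂ) (x y : ν → ℂ) :
    toBilin' J (x ᵥ* g) (y ᵥ* g) = toBilin' (g * J * gᵀ) x y := by
  rw [toBilin'_apply', toBilin'_apply', ← mulVec_transpose g y, ← dotProduct_mulVec,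
    mulVec_mulVec, mulVec_mulVec]

lemma cn_star (hr : J.map star = J) (x y : ν → ℂ) :
    toBilin' J (star x) (star y) = star (toBilin' J x y) := by
  have e : ∀ i j, star (J i j) = J i j := fun i j => congrFun (congrFun hr i) j
  simp only [toBilin'_apply, star_sum, star_mul', e, Pi.star_apply]

lemma cn_vstar (x : ν → ℂ) (A : Matrix ν ν ℂ) : star (x ᵥ* A) = star x ᵥ* A.map star := by
  funext j
  simp [vecMul, dotProduct]

/-- `g⁻¹ * spT J v (μ * a) * g = spT J (v ᵥ* g) a` -/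
theorem tv_mul (hG : QGrp G) {g : Matrix ν ν ℂ} (hg : g ∈ G) {μ : ℂ} (hμ : g * J * gᵀ = μ • J)
    {v : ν → ℂ} (hv : Tv G J v) : Tv G J (v ᵥ* g) := by
  intro a
  have e : spT J v (μ * a) * g = g * spT J (v ᵥ* g) a := sp_ext fun x => by
    simp only [← vecMul_vecMul, spT_vec, add_vecMul, smul_vecMul, cn_key, hμ, map_smul,
      LinearMap.smul_apply, smul_eq_mul]
    rw [mul_assoc, mul_left_comm]
  have := qg_mul hG (qg_inv hG hg) (qg_mul hG (hv (μ * a)) hg)
  rwa [e, ← mul_assoc, nonsing_inv_mul _ (isUnit_iff_ne_zero.mpr (qg_det hG hg)), one_mul] at this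

theorem tv_star (hG : QGrp G) (hr : J.map star = J) {v : ν → ℂ} (hv : Tv G J v) :
    Tv G J (star v) := by
  intro a
  have e : spT J (star v) a = (spT J v (star a)).map star := sp_ext fun x => by
    rw [← star_star x, ← cn_vstar, spT_vec, spT_vec, cn_star hr, star_add, star_smul, star_mul',
      star_star a]
  rw [e]
  exact qg_star hG (hv _)

/-- `W` is maximal among the subspaces of such vectors that contain `v`. If `ω(w, δ) ≠ 0` then
`w ᵥ* spT J δ a = w + a ω(w, δ) δ` is such a vector (`tv_mul`, `spT_sp`); if `ω(w, δ) = 0` use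
`w + ε w₀` and `qg_lim`. So `W ⊔ span {δ}` consists of such vectors. -/
theorem cone (hJ : Jᵀ = -J) (hG : QGrp G) {v : ν → ℂ} (hv : Tv G J v) :
    ∃ W : Submodule ℂ (ν → ℂ), v ∈ W ∧ (∀ w ∈ W, Tv G J w) ∧
      ∀ δ, Tv G J δ → ∀ w ∈ W, toBilin' J w δ ≠ 0 → δ ∈ W := by
  obtain ⟨W, ⟨h1, h2⟩, h3⟩ := (wellFounded_gt (α := Submodule ℂ (ν → ℂ))).has_min
    {W | v ∈ W ∧ ∀ w ∈ W, Tv G J w} ⟨Submodule.span ℂ {v}, Submodule.mem_span_singleton_self v,
      fun w hw a => by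
        obtain ⟨c, rfl⟩ := Submodule.mem_span_singleton.mp hw
        rw [spT_smul]
        exact hv _⟩
  refine ⟨W, h1, h2, fun δ hδ w₀ hw₀ h0 => ?_⟩
  have k1 : ∀ w ∈ W, toBilin' J w δ ≠ 0 → ∀ c : ℂ, Tv G J (w + c • δ) := fun w hw h c => by
    have := tv_mul hG (hδ (c / toBilin' J w δ)) (μ := 1) (by rw [one_smul, spT_sp hJ]) (h2 w hw)
    rwa [spT_vec, div_mul_cancel₀ _ h] at this
  have k2 : ∀ w ∈ W, ∀ c : ℂ, Tv G J (w + c • δ) := fun w hw c a => by
    by_cases h : toBilin' J w δ = 0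
    · have ct : Continuous fun ε : ℂ => spT J (w + ε • w₀ + c • δ) a := by
        have : Continuous fun ε : ℂ => w + ε • w₀ + c • δ := by fun_prop
        exact continuous_const.add
          (((continuous_const.matrix_mulVec this).matrix_vecMulVec this).const_smul a)
      refine qg_lim hG (l := 𝓝[≠] (0 : ℂ)) (g := fun ε : ℂ => spT J (w + ε • w₀ + c • δ) a)
        (by simpa using (ct.tendsto 0).mono_left nhdsWithin_le_nhds)
        (eventually_nhdsWithin_of_forall fun ε hε => ?_)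
        (isUnit_det_of_right_inverse (spT_inv' hJ _ a)).ne_zero
      refine k1 _ (W.add_mem hw (W.smul_mem ε hw₀)) ?_ c a
      rw [map_add, map_smul, LinearMap.add_apply, LinearMap.smul_apply, h, zero_add, smul_eq_mul]
      exact mul_ne_zero hε h0
    · exact k1 w hw h c a
  by_contra hn
  refine h3 (W ⊔ Submodule.span ℂ {δ}) ⟨Submodule.mem_sup_left h1, fun x hx => ?_⟩
    (lt_of_le_of_ne le_sup_left fun e => hn ?_)
  · obtain ⟨w, hw, y, hy, rfl⟩ := Submodule.mem_sup.mp hx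
    obtain ⟨c, rfl⟩ := Submodule.mem_span_singleton.mp hy
    exact k2 w hw c
  · exact e ▸ Submodule.mem_sup_right (Submodule.mem_span_singleton_self δ)

/-- Let `v ∈ W`, `ω(conj v, v) ≠ 0`, `v π = 0`. Then `conj v ∈ W`. An additive map `φ` that keeps
the transvection vectors and has `φ v₁ = v₂` with `ω(w₀, v₂) ≠ 0` keeps `W` (`φ w` or
`φ w + v₂` pairs with `w₀`): apply this to `star` and to `ᵥ* (1 + π)` (multiplier `2`). If `W ≠ ⊤`
take `u ≠ 0` orthogonal to `W`; `u π` and `conj (u (1 - π))` are orthogonal to `W`. -/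
theorem cone_alt (hJ : Jᵀ = -J) (J0 : J.det ≠ 0) (hr : J.map star = J) (hG : QGrp G)
    {π : Matrix ν ν ℂ} (h1 : π * π = π) (h2 : π.map star = 1 - π) (h3 : π * J = J * (1 - π)ᵀ)
    (h4 : 1 + π ∈ G) {v : ν → ℂ} (hv : Tv G J v) (v1 : v ᵥ* π = 0)
    (v2 : toBilin' J (star v) v ≠ 0) : (∀ g, g * J * gᵀ = J → g ∈ G) ∨
      ∃ u : ν → ℂ, u ≠ 0 ∧ u ᵥ* π = u ∧
        ∀ δ, Tv G J δ → toBilin' J (star v) δ ≠ 0 → toBilin' J δ u = 0 := by
  obtain ⟨W, w1, w2, w3⟩ := cone hJ hG hv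
  have v3 : toBilin' J v (star v) ≠ 0 := by
    rw [sp_skew hJ]
    exact neg_ne_zero.mpr v2
  have w4 : star v ∈ W := w3 _ (tv_star hG hr hv) v w1 v3
  have keep : ∀ φ : (ν → ℂ) → ν → ℂ, (∀ x y, φ (x + y) = φ x + φ y) →
      (∀ x, Tv G J x → Tv G J (φ x)) → ∀ w₀ ∈ W, toBilin' J w₀ (φ v) ≠ 0 → ∀ w ∈ W, φ w ∈ W :=
    fun φ a b w₀ c d w hw => by
      by_cases e : toBilin' J w₀ (φ w) = 0
      · have := w3 _ (b _ (w2 _ (W.add_mem hw w1))) w₀ c (by rwa [a, map_add, e, zero_add])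
        rw [a] at this
        exact (W.add_mem_iff_left (w3 _ (b _ hv) w₀ c d)).mp this
      · exact w3 _ (b _ (w2 _ hw)) w₀ c e
  have e1 : J * πᵀ = J - π * J := by
    rw [h3, transpose_sub, transpose_one, mul_sub, mul_one, sub_sub_cancel]
  have e2 : (1 + π) * J * (1 + π)ᵀ = (2 : ℂ) • J := by
    rw [transpose_add, transpose_one, mul_assoc, mul_add, mul_one, e1, add_mul, one_mul, mul_add,
      mul_sub, ← mul_assoc, h1, two_smul]
    abel
  have k1 : ∀ w ∈ W, star w ∈ W := keep star star_add (fun x => tv_star hG hr) v w1 v3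
  have k2 : ∀ w ∈ W, w ᵥ* π ∈ W := fun w hw => by
    have := keep (· ᵥ* (1 + π)) (fun x y => add_vecMul _ _ _) (fun x => tv_mul hG h4 e2) _ w4
      (by rwa [vecMul_add, vecMul_one, v1, add_zero]) w hw
    rw [vecMul_add, vecMul_one] at this
    exact (W.add_mem_iff_right hw).mp this
  by_cases hW : W = ⊤
  · exact .inl (sp_gen hJ J0 G (fun a ha b hb => qg_mul hG ha hb)
      fun x => w2 x (hW ▸ Submodule.mem_top))
  obtain ⟨f, f0, hf⟩ := W.exists_le_ker_of_lt_top (lt_top_iff_ne_top.mpr hW)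
  obtain ⟨u, hu⟩ : ∃ u, ∀ x, toBilin' J x u = f x := ⟨J⁻¹ *ᵥ fun i => f (Pi.single i 1), fun x => by
    rw [toBilin'_apply', mulVec_mulVec, mul_nonsing_inv _ (isUnit_iff_ne_zero.mpr J0), one_mulVec,
      LinearMap.pi_apply_eq_sum_univ]
    exact Finset.sum_congr rfl fun i _ => congrArg (x i * f ·) (funext fun j => by
      simp [Pi.single_apply, eq_comm])⟩
  have u0 : u ≠ 0 := fun e => f0 (LinearMap.ext fun x => by rw [← hu, e, map_zero]; rfl)
  have o1 : ∀ w ∈ W, toBilin' J w u = 0 := fun w hw => (hu w).trans (hf hw)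
  have o2 : ∀ w ∈ W, toBilin' J w (star u) = 0 := fun w hw => by
    rw [← star_star w, cn_star hr, o1 _ (k1 w hw), star_zero]
  have fin : ∀ z, (∀ w ∈ W, toBilin' J w z = 0) → z ᵥ* π ≠ 0 → ∃ u : ν → ℂ, u ≠ 0 ∧ u ᵥ* π = u ∧
      ∀ δ, Tv G J δ → toBilin' J (star v) δ ≠ 0 → toBilin' J δ u = 0 := fun z hz z0 => by
    refine ⟨_, z0, by rw [vecMul_vecMul, h1], fun δ a b => ?_⟩
    have c := w3 δ a _ w4 b
    have d := hz _ (W.sub_mem c (k2 δ c))
    rw [toBilin'_apply', ← mulVec_transpose, mulVec_mulVec, e1, dotProduct_mulVec, vecMul_sub,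
      ← vecMul_vecMul, ← sub_vecMul, ← dotProduct_mulVec, ← toBilin'_apply', d]
  refine .inr ?_
  by_cases c : u ᵥ* π = 0
  · refine fin _ o2 fun e => u0 ?_
    have := congrArg star e
    rwa [cn_vstar, star_star, h2, vecMul_sub, vecMul_one, c, sub_zero, star_zero] at this
  · exact fin _ o1 c

end

end Pool.Agent.Lib.MP_5591bc_ag.Pl
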