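import Pool.Agent.Lib.MP_5591bc_ag.Pl.Int
import Pool.Agent.Lib.MP_5591bc_ag.A.Cx

/-! The period matrix of `y ^ 2 = f(t, x)` is polarised. -/

namespace Pool.Agent.Lib.MP_5591bc_ag.Pl

open Matrix Polynomial Filter Topology M F A E Z

noncomputable section

theorem pol_cx {α β : Type*} (γ : Matrix α β ℚ) : (qr γ).map Complex.ofReal = qc γ := by
  ext i j
  simp

theorem pol_ct {α β : Type*} (γ : Matrix α β ℚ) : (qc γ)ᴴ = (qc γ)ᵀ := by
  ext i j
  simp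

theorem rie_mul {ι ν : Type*} [Fintype ι] [Fintype ν] {J J' : Matrix ν ν ℝ} {Ω : Matrix ι ν ℂ}
    {γ : Matrix ν ν ℚ}
    (e : qc γ * J.map Complex.ofReal * (qc γ)ᵀ = J'.map Complex.ofReal) :
    Rie J (Ω * qc γ) ↔ Rie J' Ω := by
  have k : ∀ X : Matrix ν ι ℂ, Ω * qc γ * J.map Complex.ofReal * ((qc γ)ᵀ * X) =
      Ω * J'.map Complex.ofReal * X := fun X => by
    rw [← e]
    simp only [Matrix.mul_assoc]
  rw [Rie, Rie, transpose_mul, conjTranspose_mul, pol_ct, k, k]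

variable {σ K : Type*} [Fintype σ] [DecidableEq σ] [Field K] [Algebra K ℂ] {g n : ℕ}
  {f : (MvPolynomial σ K)[X]} {T : MvPolynomial σ K} {D : MvPolynomial σ ℂ}
  {W : σ → Matrix (Fin n) (Fin n) (MvPolynomial σ K)} {U : Set (σ → ℂ)}
  {P : (σ → ℂ) → Matrix (Fin n) (Fin n) ℂ} {L : Matrix (Fin n) (Fin n) (MvPolynomial σ ℂ)}

theorem pol_fm (h : Fm f T W D)
    (hD : ∀ t, MvPolynomial.aeval t T ≠ 0 → MvPolynomial.eval t D ≠ 0) (hn : n = 2 * g)
    {r : Fin g → Fin n} (hr : ∀ i, (r i : ℕ) = i) (hB : ∀ z, MvPolynomial.eval z D ≠ 0 →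
      ∃ M, Bs (ev f z) (L.map (MvPolynomial.eval z)) M) (ho : IsOpen U) (hc : IsPreconnected U)
    (hP : IsPerM (ev f) U P) {s : σ → ℂ} (hs : s ∈ U) :
    ∃ J : Matrix (Fin n) (Fin n) ℚ, Pol T U P r (qr J) := by
  obtain ⟨J, J1, J2⟩ := lam_J h.D0 hB ho hc hP
  have e0 : ((J0 n).map (Int.cast : ℤ → ℝ)).map Complex.ofReal = zc (J0 n) := by
    ext i j
    simp
  have J3 : (J0 n).det ≠ 0 := fun e => by
    obtain ⟨z, z0⟩ := (off_freq h.D0 s).exists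
    obtain ⟨M, hM⟩ := hB z z0
    refine cx_det (by rw [← transpose_map, J0_anti, Matrix.map_neg _ Int.cast_neg])
      (by simpa using hn) (bs_rie hn hr hM) ?_
    rw [← Int.cast_det, e, Int.cast_zero]
  obtain ⟨d, d0, hd⟩ := int_two h J3 hB ho hc hP hs
  refine ⟨J, by rw [← transpose_map, J1, Matrix.map_neg _ Rat.cast_neg], ⟨0, L, fun t ht => ?_⟩,
    fun U₁ P₁ k t ht => ⟨fun hT => ?_, d, d0, fun U₂ P₂ k' ht' => hd _ _ _ _ k k' t ht ht'⟩⟩
  · rw [pow_zero, one_smul, pol_cx, J2 t ht]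
  · obtain ⟨M, hM⟩ := hB t (hD t hT)
    obtain ⟨p, e1, h1, e2⟩ := id hM
    obtain ⟨γ, e3⟩ := h.inv ho hc hP k t ht (hD t hT) M h1.det (e1 ▸ h1.col)
    have e4 := lam_cont ho J2 k t ht
    have e5 : γ.map (algebraMap ℚ ℂ) = qc γ := rfl
    rw [e3, e5, ← e2, transpose_mul] at e4
    have u := h1.det.isUnit
    have e6 : qc γ * qc J * (qc γ)ᵀ = zc (J0 n) := by
      have := congrArg (fun X => M⁻¹ * X * Mᵀ⁻¹) e4
      simpa only [Matrix.mul_assoc, mul_nonsing_inv _ (isUnit_det_transpose M u), Matrix.mul_one,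
        nonsing_inv_mul_cancel_left _ _ u] using this
    rw [e3, e5, show (M * qc γ).submatrix r id = M.submatrix r id * qc γ from rfl]
    exact (rie_mul (by rw [pol_cx, e6, e0])).2 (bs_rie hn hr hM)

end

end Pool.Agent.Lib.MP_5591bc_ag.Pl
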