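import Pool.Agent.Lib.MP_5591bc_ag.F.All

/-! A Picard-Fuchs system whose denominator vanishes exactly on the discriminant. -/

namespace Pool.Agent.Lib.MP_5591bc_ag.Pl

open Polynomial Finset Filter Topology M F

noncomputable section

theorem iterM_smul {R σ ν : Type*} [CommRing R] [Fintype ν] [DecidableEq ν] (a T : MvPolynomial σ R)
    (B : σ → Matrix ν ν (MvPolynomial σ R)) (w : List σ) :
    iterM (a * T) (fun l => a • B l) w = a ^ w.length • iterM T B w := by
  induction w with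
  | nil => simp [iterM]
  | cons l w ih =>
    have hp : a * MvPolynomial.pderiv l (a ^ w.length) =
        w.length * a ^ w.length * MvPolynomial.pderiv l a := by
      rw [Derivation.leibniz_pow]
      rcases w.length with _ | n
      · simp
      · simp only [Nat.add_sub_cancel, smul_eq_mul, nsmul_eq_mul]
        ring
    rw [iterM, iterM, ih, Matrix.smul_mul, Matrix.mul_smul, List.length_cons]
    refine Matrix.ext fun i j => ?_
    simp only [Matrix.add_apply, Matrix.sub_apply, Matrix.smul_apply, Matrix.map_apply, smul_eq_mul,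
      Derivation.leibniz]
    linear_combination T * iterM T B w i j * hp

/-- `gal_den (C a)` gives `c` with `c * a` integral; the denominator is `d * c ^ m` -/
theorem galM_mul {K σ ν : Type*} [Field K] [NumberField K] [Fintype σ] [DecidableEq σ] [Fintype ν]
    [DecidableEq ν] {T : MvPolynomial σ K} {B : σ → Matrix ν ν (MvPolynomial σ K)}
    (a : MvPolynomial σ K) (h : GalM T B) : GalM (a * T) fun l => a • B l := by
  obtain ⟨C, hC⟩ := h
  obtain ⟨c, c0, p0, hp⟩ := gal_den (Polynomial.C a)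
  have ha : MvPolynomial.map (algebraMap _ K) (p0.coeff 0) = c * a := by
    rw [← coeff_map, hp, ← map_natCast Polynomial.C, ← C_mul, coeff_C_zero]
  refine ⟨C * c, fun m => ?_⟩
  obtain ⟨d, d0, h1, h2⟩ := hC m
  refine ⟨d * c ^ m, by positivity, ?_, fun w hw i j κ => ?_⟩
  · rw [Nat.cast_mul, Nat.cast_pow, mul_pow]
    exact mul_le_mul h1 (pow_le_pow_right₀ (Nat.one_le_cast.2 c0) m.le_succ) (by positivity)
      ((Nat.cast_nonneg d).trans h1)
  obtain ⟨k, rfl⟩ := Nat.exists_eq_add_of_le hw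
  have e : ((d * c ^ (w.length + k) : ℕ) : K) *
      MvPolynomial.coeff κ (iterM (a * T) (fun l => a • B l) w i j) /
        ∏ l, ((w.count l).factorial : K) = (c : K) ^ k * ∑ x ∈ antidiagonal κ,
      algebraMap (NumberField.RingOfIntegers K) K (MvPolynomial.coeff x.1 (p0.coeff 0 ^ w.length)) *
        (d * MvPolynomial.coeff x.2 (iterM T B w i j) / ∏ l, ((w.count l).factorial : K)) := by
    rw [iterM_smul, Matrix.smul_apply, smul_eq_mul, MvPolynomial.coeff_mul, mul_sum, mul_sum, sum_div]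
    refine sum_congr rfl fun x _ => ?_
    rw [← MvPolynomial.coeff_map, map_pow, ha, mul_pow, ← map_natCast MvPolynomial.C, ← map_pow,
      MvPolynomial.coeff_C_mul]
    push_cast
    ring
  rw [e]
  exact ((isIntegral_natCast c).pow k).mul (IsIntegral.sum _ fun x _ =>
    (NumberField.RingOfIntegers.isIntegral_coe _).mul (h2 w (Nat.le_add_right _ _) i j x.2))

/-- `fam_fm`, multiplied by `a = ∏ l, famT f₀ l` (in `PF` multiply `q` by `C a`); separability and
degree as in `per_fam` -/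
theorem fam_fm2 {K : Type} [Field K] [NumberField K] [Algebra K ℂ] {σ : Type} [Fintype σ]
    [DecidableEq σ] {f₀ : K[X]} {n : ℕ} (hs : f₀.Separable)
    (hn : f₀.natDegree + Fintype.card σ = n + 1) :
    ∃ (T : MvPolynomial σ K) (W : σ → Matrix (Fin n) (Fin n) (MvPolynomial σ K)),
      Fm (fam σ f₀) T W (MvPolynomial.map (algebraMap K ℂ) T) ∧ GalM T W ∧ ∀ t : σ → ℂ,
        MvPolynomial.aeval t T ≠ 0 ↔ Function.Injective t ∧ ∀ l, aeval (t l) f₀ ≠ 0 := by
  obtain ⟨T, W, D, h1, h2, h3⟩ := fam_fm hs hn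
  have key : ∀ t : σ → ℂ, MvPolynomial.aeval t (∏ l, famT f₀ l) ≠ 0 ↔
      Function.Injective t ∧ ∀ l, aeval (t l) f₀ ≠ 0 := fun t => by
    simp only [map_prod, prod_ne_zero_iff, famT, map_mul, mul_ne_zero_iff, ← aeval_algHom_apply,
      MvPolynomial.aeval_X, map_sub, mem_univ, true_imp_iff, mem_erase, and_true, sub_ne_zero]
    exact ⟨fun h => ⟨fun i j e => by_contra fun c => (h j).2 i c e.symm, fun l => (h l).1⟩,
      fun h l => ⟨h.2 l, fun j c e => c (h.1 e).symm⟩⟩
  have k2 : ∀ t : σ → ℂ, MvPolynomial.aeval t ((∏ l, famT f₀ l) * T) ≠ 0 ↔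
      Function.Injective t ∧ ∀ l, aeval (t l) f₀ ≠ 0 := fun t => by
    rw [map_mul, mul_ne_zero_iff, key]
    exact ⟨fun h => h.1, fun h => ⟨h, h3 t h.1 h.2⟩⟩
  have T0 : (∏ l : σ, famT f₀ l) * T ≠ 0 :=
    mul_ne_zero (prod_ne_zero_iff.2 fun l _ => famT_ne hs.ne_zero l) h1.T0
  refine ⟨(∏ l, famT f₀ l) * T, fun l => (∏ l, famT f₀ l) • W l, ⟨T0,
    (map_ne_zero_iff _ (MvPolynomial.map_injective _ (algebraMap K ℂ).injective)).2 T0,
    fun l i => ?_, fun z hz => ?_⟩, galM_mul _ h2, k2⟩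
  · obtain ⟨q, hq⟩ := h1.pf l i
    refine ⟨C (∏ l, famT f₀ l) * q, ?_⟩
    have e : ∑ j : Fin n, C (((∏ l : σ, famT f₀ l) • W l) i j) * X ^ (j : ℕ) =
        C (∏ l : σ, famT f₀ l) * ∑ j : Fin n, C (W l i j) * X ^ (j : ℕ) := by
      rw [mul_sum]
      exact sum_congr rfl fun j _ => by rw [Matrix.smul_apply, smul_eq_mul, C_mul, mul_assoc]
    rw [e, C_mul, mul_assoc, hq]
    simp only [tw, derivative_C_mul]
    ring
  · rw [MvPolynomial.eval_map, ← MvPolynomial.aeval_def] at hz
    obtain ⟨t1, t2⟩ := (k2 z).1 hz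
    refine ⟨hz, f₀.map (algebraMap K ℂ) * ∏ l, (X - C (z l)),
      hs.map.mul (separable_prod_X_sub_C_iff.2 t1) (IsCoprime.prod_right fun l _ =>
        ((irreducible_X_sub_C _).coprime_iff_not_dvd.2 (by
          rw [dvd_iff_isRoot, IsRoot, eval_map_algebraMap]; exact t2 l)).symm), ?_,
      funext fun x => ?_⟩
    · rw [mul_comm, (monic_prod_of_monic _ _ fun _ _ => monic_X_sub_C _).natDegree_mul'
        (Polynomial.map_ne_zero hs.ne_zero), natDegree_map,
        natDegree_prod_of_monic _ _ fun _ _ => monic_X_sub_C _, ← hn, add_comm]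
      simp
    · rw [ev_fam, eval_mul, eval_map_algebraMap, eval_prod]
      simp

end

end Pool.Agent.Lib.MP_5591bc_ag.Pl
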