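import Pool.Agent.Lib.MP_5591bc_ag.Pl.Big
import Pool.Agent.Lib.MP_5591bc_ag.Pl.Pol
import Pool.Agent.Lib.MP_5591bc_ag.Pl.Sc
import Pool.Agent.Lib.MP_5591bc_ag.F.RbM
import Pool.Agent.Lib.MP_5591bc_ag.A.Fin

/-! Few exceptional points outside the Hodge locus. -/

namespace Pool.Agent.Lib.MP_5591bc_ag.Pl

open Matrix Polynomial Filter Topology M F A E Z

noncomputable section

theorem big_cj {ν : Type*} [Fintype ν] (J : Matrix ν ν ℝ) (γ : Matrix ν ν ℚ) :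
    (qr γ * J * (qr γ)ᵀ).map Complex.ofReal = qc γ * J.map Complex.ofReal * (qc γ)ᵀ := by
  rw [← pol_cx, ← transpose_map]
  exact (Matrix.map_mul (f := Complex.ofRealHom)).trans
    (congrArg (· * _) (Matrix.map_mul (f := Complex.ofRealHom)))

theorem big_mul {ι ν : Type*} [Fintype ν] [DecidableEq ν] {J : Matrix ν ν ℝ} {Ω : Matrix ι ν ℂ}
    {γ : Matrix ν ν ℚ} (γ0 : γ.det ≠ 0) (h : BigMT (qr γ * J * (qr γ)ᵀ) Ω) :
    BigMT J (Ω * qc γ) := fun X hX => by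
  have cm : ∀ A B : Matrix ν ν ℚ, qc (A * B) = qc A * qc B := fun A B =>
    Matrix.map_mul (f := Rat.castHom ℂ)
  have c1 : qc (1 : Matrix ν ν ℚ) = 1 := Matrix.map_one _ Rat.cast_zero Rat.cast_one
  have e1 : qc γ⁻¹ * qc γ = 1 := by rw [← cm, nonsing_inv_mul _ γ0.isUnit, c1]
  have k := mtg_mul γ0 (h (qc γ * X * qc γ⁻¹) (by
    rw [big_cj, transpose_mul, transpose_mul]
    calc _ = qc γ * (X * (qc γ⁻¹ * qc γ) * J.map Complex.ofReal * ((qc γ⁻¹ * qc γ)ᵀ * Xᵀ)) *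
          (qc γ)ᵀ := by simp only [transpose_mul, Matrix.mul_assoc]
      _ = _ := by rw [e1, transpose_one, Matrix.mul_one, Matrix.one_mul, hX]))
  rwa [Matrix.mul_assoc, Matrix.mul_assoc, e1, Matrix.mul_one, ← Matrix.mul_assoc, e1,
    Matrix.one_mul] at k

variable {K : Type} [Field K] [NumberField K] [Algebra K ℂ] {σ : Type} [Fintype σ] [DecidableEq σ]
  {f₀ : K[X]} {g n : ℕ}

theorem hyp_gen (hs : Squarefree f₀) (h2 : 2 ≤ f₀.natDegree) (l : σ) (hn : n = 2 * g)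
    (hd : f₀.natDegree + Fintype.card σ = n + 1) {r : Fin g → Fin n} (hr : ∀ i, (r i : ℕ) = i) :
    ∃ C : ℕ, ∀ (δ d : ℕ) (H : ℝ), 2 ≤ H → ∀ S : Finset (σ → ℂ),
      (∀ t ∈ S, Function.Injective t ∧ (∀ l, aeval (t l) f₀ ≠ 0) ∧
        (∀ j, ∃ q : ℤ[X], q ≠ 0 ∧ (∀ i, |(q.coeff i : ℝ)| ≤ H) ∧ aeval (t j) q = 0) ∧
        ∃ (U : Set (σ → ℂ)) (P : (σ → ℂ) → Matrix (Fin n) (Fin n) ℂ), IsOpen U ∧ IsPreconnected U ∧
          IsPerM (fun t z => aeval z f₀ * ∏ l, (z - t l)) U P ∧ t ∈ U ∧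
          HodgeGen (fun s => (P s).submatrix r id) t ∧
          ∃ (E : IntermediateField K ℂ) (x : σ → E), (∀ j, (x j : ℂ) = t j) ∧
            FiniteDimensional ℚ E ∧ Module.finrank ℚ E ≤ d ∧ ¬ GoodV U P δ x) →
        (S.card : ℝ) ≤ (C * (δ + 2) * d * Real.log H) ^
          (C * (δ + 1) ^ (Fintype.card σ * n ^ 2)) := by
  have hs' := PerfectField.separable_iff_squarefree.2 hs
  obtain ⟨T, W, h, hG, hT⟩ := fam_fm2 (σ := σ) hs' hd
  have eD : ∀ t : σ → ℂ, MvPolynomial.eval t (MvPolynomial.map (algebraMap K ℂ) T) =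
      MvPolynomial.aeval t T := fun t => by rw [MvPolynomial.eval_map, MvPolynomial.aeval_def]
  have e : ev (fam σ f₀) = fun t z => aeval z f₀ * ∏ l, (z - t l) :=
    funext₂ fun t z => ev_fam f₀ t z
  have ev : Even n := ⟨g, by omega⟩
  obtain ⟨L, hB⟩ := lam_ex h ev (c := f₀.leadingCoeff) (by
    rw [← hd, ← (fam_deg hs.ne_zero).1, ← (fam_deg hs.ne_zero).2, leadingCoeff])
    fun p p1 p2 => rb_ex p1 p2 ev
  obtain ⟨s, s0⟩ := (off_freq h.D0 0).exists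
  obtain ⟨ρ, P₀, r0, h0⟩ := h.ex s0
  have o0 := Metric.isOpen_ball (x := s) (ε := ρ)
  have c0 := (convex_ball s ρ).isPreconnected
  obtain ⟨J, hJ⟩ := pol_fm h (fun t ht => eD t ▸ ht) hn hr hB o0 c0 h0 (Metric.mem_ball_self r0)
  obtain ⟨C, hC⟩ := cntA (ι := Fin g) (by simpa using hn) h.T0 hG
  refine ⟨C, fun δ d H H2 S hS => hC δ _ P₀ r _ o0 c0 (per_fund h0 h.pf)
    (connM_fam hs' hd o0 c0 h0) hJ d H H2 S fun t ht => ?_⟩
  obtain ⟨t1, t2, b, U, P, ho, hc, hP, m, hg, E, x, hx, e1, e2, hb⟩ := hS t ht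
  rw [← e] at hP
  have t0 := (hT t).2 ⟨t1, t2⟩
  obtain ⟨γ, γ0, k⟩ := h.reach o0 c0 h0 (Metric.mem_ball_self r0) ho hc hP m
  obtain ⟨V, -, -, v1, -, v2⟩ := cont_fund h.T0 o0 c0 (per_fund h0 h.pf) k m t0
  refine ⟨t0, b, U, _, k, m, big_mul γ0 (big_fam h hs' h2 hn ?_ hr hP ?_ ?_ l hg),
    iso_fam h hs' h2 hn hr v2 v1 (eD t ▸ t0) t1 t2, E, x, hx, e1, e2, fun hg => hb (good_rat ho hc
      (fun z hz => ⟨(hP z hz).1, fun i j => (per_ode hP hz i j).1⟩) γ0 ?_ hg)⟩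
  · omega
  · rw [transpose_mul, transpose_mul, transpose_transpose, hJ.1, Matrix.neg_mul, Matrix.mul_neg,
      Matrix.mul_assoc]
  · filter_upwards [ho.mem_nhds m, mon_ev t (eD t ▸ t0)] with z z1 z2
    have z3 := eD z ▸ z2
    exact ⟨z1, z2, ((hT z).1 z3).1, ((hT z).1 z3).2, (rie_mul (big_cj _ γ).symm).1
      ((hJ.2.2 _ _ k z z1).1 z3)⟩
  · rwa [show pc x = t from funext hx]

end

end Pool.Agent.Lib.MP_5591bc_ag.Pl
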