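import Pool.Agent.Lib.MP_5591bc_ag.Pl.Lim
import Pool.Agent.Lib.MP_5591bc_ag.Pl.Cone

/-! A group that contains all nearby Hodge tori contains the symplectic group. -/

namespace Pool.Agent.Lib.MP_5591bc_ag.Pl

open Matrix A Filter Topology

noncomputable section

/-- `eq_zero_of_abs_deriv_le_mul_abs_self_of_eq_zero_right` on rays -/
theorem gro {E : Type*} [NormedAddCommGroup E] [NormedSpace ℂ E] {φ φ' : ℂ → E} {s : ℂ} {c : ℝ}
    (h : ∀ᶠ t in 𝓝 s, HasDerivAt φ (φ' t) t ∧ ‖φ' t‖ ≤ c * ‖φ t‖) (h0 : φ s = 0) :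
    ∀ᶠ t in 𝓝 s, φ t = 0 := by
  obtain ⟨r, r0, hr⟩ := Metric.eventually_nhds_iff_ball.1 h
  filter_upwards [Metric.ball_mem_nhds s r0] with t ht
  have m (x : ℝ) (hx : x ∈ Set.Icc (0 : ℝ) 1) : s + x * (t - s) ∈ Metric.ball s r := by
    rw [mem_ball_iff_norm] at ht ⊢
    rw [add_sub_cancel_left, norm_mul, Complex.norm_real, Real.norm_of_nonneg hx.1]
    exact (mul_le_of_le_one_left (norm_nonneg _) hx.2).trans_lt ht
  have d (x : ℝ) (hx : x ∈ Set.Icc (0 : ℝ) 1) : HasDerivAt (fun x : ℝ => φ (s + x * (t - s)))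
      ((t - s) • φ' (s + x * (t - s))) x := by
    have : HasDerivAt (fun x : ℝ => s + x * (t - s)) (t - s) x := by
      simpa using (((hasDerivAt_id (x : ℂ)).mul_const (t - s)).const_add s).comp_ofReal
    exact (hr _ (m x hx)).1.scomp x this
  have := eq_zero_of_abs_deriv_le_mul_abs_self_of_eq_zero_right (K := ‖t - s‖ * c)
    (fun x hx => (d x hx).continuousAt.continuousWithinAt)
    (fun x hx => (d x (Set.Ico_subset_Icc_self hx)).hasDerivWithinAt) (by simpa using h0)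
    (fun x hx => by
      rw [norm_smul, mul_assoc]
      exact mul_le_mul_of_nonneg_left (hr _ (m x (Set.Ico_subset_Icc_self hx))).2 (norm_nonneg _))
    1 (by simp)
  simpa using this

variable {ι ν : Type*} [Fintype ι] [DecidableEq ι] [Fintype ν] [DecidableEq ν]
  {J : Matrix ν ν ℝ} {G : Set (Matrix ν ν ℂ)} {Ω : ℂ → Matrix ι ν ℂ} {s : ℂ}

omit [DecidableEq ι] in
theorem gen_norm (M : Matrix ι ι ℂ) (x : ι → ℂ) : ‖M *ᵥ x‖ ≤ (∑ i, ∑ j, ‖M i j‖) * ‖x‖ := by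
  refine (pi_norm_le_iff_of_nonneg (by positivity)).2 fun i => (norm_sum_le _ _).trans ?_
  refine le_trans ?_ (mul_le_mul_of_nonneg_right (Finset.single_le_sum
    (f := fun i => ∑ j, ‖M i j‖) (fun _ _ => by positivity) (Finset.mem_univ i)) (norm_nonneg x))
  rw [Finset.sum_mul]
  exact Finset.sum_le_sum fun j _ => (norm_mul_le _ _).trans
    (mul_le_mul_of_nonneg_left (norm_le_pi_norm x j) (norm_nonneg _))

/-- `v t = η t ᵥ* (1 - π t)` (`lim_tv`), `cone_alt` at `s`; `φ t = Ω t *ᵥ (J *ᵥ u)` has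
`φ' = B φ + (η J Ωᴴ (Ω J Ωᴴ)⁻¹ ⬝ φ) a`, so `φ = 0` (`gro`), so `π t J u = 0`, so `u (1 - π t) = 0`
(`prj_J`). -/
theorem gen (hJ : Jᵀ = -J) (hc : Fintype.card ν = 2 * Fintype.card ι) (hG : QGrp G)
    {B : ℂ → Matrix ι ι ℂ} {a : ℂ → ι → ℂ} {η : ℂ → ν → ℂ} (cB : ContinuousAt B s)
    (ca : ContinuousAt a s) (cη : ContinuousAt η s)
    (h : ∀ᶠ t in 𝓝 s, Rie J (Ω t) ∧ Tor G (prj J (Ω t)) ∧ a t ≠ 0 ∧
      ∀ i j, HasDerivAt (Ω · i j) ((B t * Ω t + vecMulVec (a t) (η t)) i j) t)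
    (h0 : ¬ ∃ q, η s = q ᵥ* Ω s) (h1 : ∀ u, (∀ᶠ t in 𝓝 s, ∃ q, u = q ᵥ* Ω t) → u = 0) :
    ∀ g, g * cx J * gᵀ = cx J → g ∈ G := by
  obtain ⟨R, T, -, D⟩ := h.self_of_nhds
  have cJ : (cx J).det ≠ 0 := fun e => cx_det hJ hc R
    (Complex.ofReal_eq_zero.1 ((Complex.ofRealHom.map_det J).trans e))
  have tv : ∀ᶠ t in 𝓝 s, Tv G (cx J) (η t ᵥ* (1 - prj J (Ω t))) := by
    filter_upwards [h, h.eventually_nhds] with t h2 h3
    exact lim_tv hJ hc hG h2.2.2.2 (h3.mono fun z hz => ⟨hz.1, hz.2.1⟩) h2.2.2.1 rfl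
  have v1 : η s ᵥ* (1 - prj J (Ω s)) ᵥ* prj J (Ω s) = 0 := by
    rw [vecMul_vecMul, sub_mul, one_mul, prj_sq R, sub_self, vecMul_zero]
  have v2 := prj_pos hJ hc R (fun e => h0 ⟨η s ᵥ* (cx J * (Ω s)ᴴ * (Ω s * cx J * (Ω s)ᴴ)⁻¹), by
    rw [vecMul_sub, vecMul_one, sub_eq_zero] at e
    rwa [vecMul_vecMul]⟩) v1
  have cΩ : ContinuousAt Ω s :=
    continuousAt_pi.2 fun i => continuousAt_pi.2 fun j => (D i j).continuousAt
  obtain ⟨cA, cπ⟩ := prj_cont cΩ R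
  refine (cone_alt (by rw [← cxa_tr, hJ, cxa_neg]) cJ (cxa_star J) hG (prj_sq R) (prj_bar hJ hc R)
    (prj_J hJ hc R) (by simpa [show (2 : ℂ) - 1 = 1 by norm_num] using T 2 1 two_ne_zero one_ne_zero)
    tv.self_of_nhds v1 v2).resolve_right ?_
  rintro ⟨u, u0, u1, u2⟩
  have pJ {t : ℂ} (R : Rie J (Ω t)) :
      prj J (Ω t) *ᵥ (cx J *ᵥ u) = cx J *ᵥ (u - u ᵥ* prj J (Ω t)) := by
    rw [mulVec_mulVec, prj_J hJ hc R, ← mulVec_mulVec, mulVec_transpose, vecMul_sub, vecMul_one]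
  have cv : ContinuousAt (fun t => toBilin' (cx J) (star (η s ᵥ* (1 - prj J (Ω s))))
      (η t ᵥ* (1 - prj J (Ω t)))) s := by
    have : Continuous fun p : (ν → ℂ) × Matrix ν ν ℂ =>
        star (η s ᵥ* (1 - prj J (Ω s))) ⬝ᵥ cx J *ᵥ (p.1 ᵥ* (1 - p.2)) :=
      continuous_const.dotProduct (continuous_const.matrix_mulVec
        (continuous_fst.matrix_vecMul (continuous_const.sub continuous_snd)))
    simp only [toBilin'_apply']
    exact this.continuousAt.comp (f := fun t => (η t, prj J (Ω t))) (cη.prodMk cπ)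
  obtain ⟨M, hM⟩ : ∃ M : ℂ → Matrix ι ι ℂ, M = fun t => B t + vecMulVec (a t)
    (η t ᵥ* (cx J * (Ω t)ᴴ * (Ω t * cx J * (Ω t)ᴴ)⁻¹)) := ⟨_, rfl⟩
  have cM : ContinuousAt (fun t => ∑ i, ∑ j, ‖M t i j‖) s := by
    have : Continuous fun p : (Matrix ι ι ℂ × (ι → ℂ)) × (ν → ℂ) × Matrix ν ι ℂ =>
        ∑ i, ∑ j, ‖(p.1.1 + vecMulVec p.1.2 (p.2.1 ᵥ* p.2.2)) i j‖ :=
      continuous_finsetSum _ fun i _ => continuous_finsetSum _ fun j _ =>
        ((continuous_fst.fst.add (continuous_fst.snd.matrix_vecMulVec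
          (continuous_snd.fst.matrix_vecMul continuous_snd.snd))).matrix_elem i j).norm
    rw [hM]
    exact this.continuousAt.comp (f := fun t => ((B t, a t), η t,
      cx J * (Ω t)ᴴ * (Ω t * cx J * (Ω t)ᴴ)⁻¹)) ((cB.prodMk ca).prodMk (cη.prodMk cA))
  have z := gro (φ := fun t => Ω t *ᵥ (cx J *ᵥ u)) (φ' := fun t => M t *ᵥ (Ω t *ᵥ (cx J *ᵥ u)))
    (s := s) (c := ∑ i, ∑ j, ‖M s i j‖ + 1) ?_ (by
      rw [← prj_l R, ← mulVec_mulVec, pJ R, u1, sub_self, mulVec_zero, mulVec_zero])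
  · refine u0 (h1 u ?_)
    filter_upwards [z, h] with t h2 h3
    have := pJ h3.1
    rw [prj, ← mulVec_mulVec, h2, mulVec_zero] at this
    exact ⟨_, (sub_eq_zero.1 (eq_zero_of_mulVec_eq_zero cJ this.symm)).trans
      (vecMul_vecMul _ _ _).symm⟩
  · filter_upwards [h, tv, cv.eventually_ne v2, cM.eventually_lt continuousAt_const (lt_add_one _)]
      with t h2 h3 h4 h5
    refine ⟨?_, (gen_norm _ _).trans (mul_le_mul_of_nonneg_right h5.le (norm_nonneg _))⟩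
    have k := u2 _ h3 h4
    rw [toBilin'_apply', vecMul_sub, vecMul_one, sub_dotProduct, sub_eq_zero, prj,
      ← vecMul_vecMul, ← dotProduct_mulVec] at k
    have : M t *ᵥ (Ω t *ᵥ (cx J *ᵥ u)) = (B t * Ω t + vecMulVec (a t) (η t)) *ᵥ (cx J *ᵥ u) := by
      rw [hM, add_mulVec, add_mulVec, vecMulVec_mulVec, vecMulVec_mulVec, ← k,
        mulVec_mulVec _ (B t)]
    rw [this]
    exact hasDerivAt_pi.2 fun i => HasDerivAt.fun_sum fun j _ => (h2.2.2.2 i j).mul_const _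

end

end Pool.Agent.Lib.MP_5591bc_ag.Pl
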