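import Pool.Agent.Lib.MP_5591bc_ag.Pl.Set

/-! Algebraic groups over `ℚ`. -/

namespace Pool.Agent.Lib.MP_5591bc_ag.Pl

open Matrix A Filter Topology

noncomputable section

variable {ι ν : Type*} [Fintype ν] [DecidableEq ν] {G : Set (Matrix ν ν ℂ)} {a b : Matrix ν ν ℂ}

lemma qg_cont (p : MvPolynomial (ν × ν) ℚ) :
    Continuous fun g : Matrix ν ν ℂ => MvPolynomial.aeval (fun a : ν × ν => g a.1 a.2) p := by
  induction p using MvPolynomial.induction_on with
  | C a => simpa using continuous_const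
  | add p q hp hq => simp only [map_add]; exact hp.add hq
  | mul_X p i hp =>
    simp only [map_mul, MvPolynomial.aeval_X]
    exact hp.mul (continuous_id.matrix_elem i.1 i.2)

theorem qg_det (hG : QGrp G) (ha : a ∈ G) : a.det ≠ 0 := by
  obtain ⟨⟨E, rfl⟩, -⟩ := hG
  exact ha.1

theorem qg_inv (hG : QGrp G) (ha : a ∈ G) : a⁻¹ ∈ G := by
  simpa using hG.2.2 1 hG.2.1 a ha

theorem qg_mul (hG : QGrp G) (ha : a ∈ G) (hb : b ∈ G) : a * b ∈ G := by
  have := hG.2.2 a ha _ (qg_inv hG hb)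
  rwa [nonsing_inv_nonsing_inv _ (isUnit_iff_ne_zero.mpr (qg_det hG hb))] at this

/-- rational polynomials commute with complex conjugation -/
theorem qg_star (hG : QGrp G) (ha : a ∈ G) : a.map star ∈ G := by
  obtain ⟨⟨E, rfl⟩, -⟩ := hG
  refine ⟨?_, fun p hp => ?_⟩
  · rw [show a.map star = (starRingEnd ℂ).mapMatrix a from rfl, ← RingHom.map_det]
    exact (map_ne_zero _).mpr ha.1
  · have := congrArg (starRingEnd ℂ) (ha.2 p hp)
    rwa [map_zero, MvPolynomial.map_aeval, MvPolynomial.coe_eval₂Hom,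
      Subsingleton.elim (RingHom.comp _ _) (algebraMap ℚ ℂ), ← MvPolynomial.aeval_def] at this

theorem qg_lim (hG : QGrp G) {α : Type*} {l : Filter α} [l.NeBot] {g : α → Matrix ν ν ℂ}
    (h1 : Tendsto g l (𝓝 a)) (h2 : ∀ᶠ x in l, g x ∈ G) (a0 : a.det ≠ 0) : a ∈ G := by
  obtain ⟨⟨E, rfl⟩, -⟩ := hG
  refine ⟨a0, fun p hp => ?_⟩
  exact (isClosed_eq (qg_cont p) continuous_const).mem_of_tendsto h1 (h2.mono fun x hx => hx.2 p hp)

/-- `p ((x - i y) + 2 i y π)` is a complex polynomial in `x, y` that vanishes for real `x > 0`, `y`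
(`MvPolynomial.funext_set`, or the identity theorem twice); the inverse is
`w⁻¹ • 1 + (z⁻¹ - w⁻¹) • π`. -/
theorem qg_tor (hG : QGrp G) {π : Matrix ν ν ℂ} (hπ : π * π = π)
    (h : ∀ z : ℂ, z ≠ 0 → star z • (1 : Matrix ν ν ℂ) + (z - star z) • π ∈ G) : Tor G π := by
  obtain ⟨⟨E, rfl⟩, -⟩ := hG
  intro z w z0 w0
  refine ⟨(isUnit_det_of_right_inverse
    (B := w⁻¹ • (1 : Matrix ν ν ℂ) + (z⁻¹ - w⁻¹) • π) ?_).ne_zero, fun p hp => ?_⟩
  · simp only [add_mul, mul_add, smul_mul_assoc, mul_smul_comm, one_mul, mul_one, hπ, smul_add,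
      smul_smul]
    match_scalars <;> field_simp <;> ring
  let q : MvPolynomial (Fin 2) ℂ := MvPolynomial.aeval (fun a : ν × ν =>
    (MvPolynomial.X 0 - MvPolynomial.C Complex.I * MvPolynomial.X 1) *
      MvPolynomial.C ((1 : Matrix ν ν ℂ) a.1 a.2) + MvPolynomial.C (2 * Complex.I) *
        MvPolynomial.X 1 * MvPolynomial.C (π a.1 a.2) : ν × ν → MvPolynomial (Fin 2) ℂ) p
  have key : ∀ (x : Fin 2 → ℂ) (z w : ℂ), w = x 0 - Complex.I * x 1 → z = x 0 + Complex.I * x 1 →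
      MvPolynomial.eval x q = MvPolynomial.aeval
        (fun a : ν × ν => (w • (1 : Matrix ν ν ℂ) + (z - w) • π) a.1 a.2) p := fun x z w e1 e2 => by
    rw [MvPolynomial.map_aeval, MvPolynomial.coe_eval₂Hom,
      Subsingleton.elim (RingHom.comp _ _) (algebraMap ℚ ℂ), ← MvPolynomial.aeval_def]
    congr 2
    funext a
    simp only [map_add, map_mul, map_sub, MvPolynomial.eval_X, MvPolynomial.eval_C,
      Matrix.add_apply, Matrix.smul_apply, smul_eq_mul, e1, e2]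
    ring
  have q0 : q = 0 := MvPolynomial.funext_set (fun _ => Complex.ofReal '' Set.Ioi 0)
    (fun _ => (Set.Ioi_infinite _).image Complex.ofReal_injective.injOn) fun x hx => by
      obtain ⟨s, hs, e1⟩ := hx 0 (Set.mem_univ _)
      obtain ⟨t, -, e2⟩ := hx 1 (Set.mem_univ _)
      rw [key x (s + Complex.I * t) (star (s + Complex.I * t)) (by simp [← e1, ← e2, sub_eq_add_neg])
        (by rw [e1, e2]), map_zero]
      refine (h _ fun e => ?_).2 p hp
      have := congrArg Complex.re e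
      simp at this
      exact hs.ne' this
  rw [← key ![(z + w) / 2, (w - z) / 2 * Complex.I] z w, q0, map_zero]
  · simp only [cons_val_zero, cons_val_one]
    linear_combination (w - z) / 2 * Complex.I_mul_I
  · simp only [cons_val_zero, cons_val_one]
    linear_combination -(w - z) / 2 * Complex.I_mul_I

/-- the conjugate `{g | γ⁻¹ g γ ∈ G}` of a `QGrp` by a rational matrix is a `QGrp`
(substitute `γ⁻¹.map C * mvPolynomialX * γ.map C`) -/
theorem mtg_mul {Ω : Matrix ι ν ℂ} {γ : Matrix ν ν ℚ} (γ0 : γ.det ≠ 0) (ha : a ∈ MTG Ω) :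
    qc γ⁻¹ * a * qc γ ∈ MTG (Ω * qc γ) := by
  have m : ∀ a b : Matrix ν ν ℚ, a * b = 1 → qc a * qc b = 1 := fun a b e => by
    refine (Matrix.map_mul (f := Rat.castHom ℂ)).symm.trans ?_
    rw [e]
    exact Matrix.map_one _ Rat.cast_zero Rat.cast_one
  have m1 : qc γ * qc γ⁻¹ = 1 := m _ _ (mul_nonsing_inv _ (isUnit_iff_ne_zero.mpr γ0))
  have m2 : qc γ⁻¹ * qc γ = 1 := mul_eq_one_comm.mp m1
  have dt : ∀ g : Matrix ν ν ℂ, (qc γ⁻¹ * g * qc γ).det = g.det := fun g => by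
    rw [det_mul_comm, ← mul_assoc, m1, one_mul]
  rintro G ⟨hG, h⟩
  refine ha {g | qc γ⁻¹ * g * qc γ ∈ G} ⟨⟨?_, ?_, fun a ha b hb => ?_⟩, fun z k z0 k1 k2 => ?_⟩
  · obtain ⟨⟨E, rfl⟩, -⟩ := hG
    have key : ∀ (g : Matrix ν ν ℂ) (p : MvPolynomial (ν × ν) ℚ),
        MvPolynomial.aeval (fun a : ν × ν => g a.1 a.2) (MvPolynomial.bind₁ (fun a : ν × ν =>
          (γ⁻¹.map MvPolynomial.C * mvPolynomialX ν ν ℚ * γ.map MvPolynomial.C :
            Matrix ν ν (MvPolynomial (ν × ν) ℚ)) a.1 a.2) p) =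
        MvPolynomial.aeval (fun a : ν × ν => (qc γ⁻¹ * g * qc γ) a.1 a.2) p := fun g p => by
      rw [MvPolynomial.aeval_bind₁]
      congr 2
      funext a
      simp [mul_apply, mvPolynomialX]
    refine ⟨MvPolynomial.bind₁ (fun a : ν × ν =>
      (γ⁻¹.map MvPolynomial.C * mvPolynomialX ν ν ℚ * γ.map MvPolynomial.C :
        Matrix ν ν (MvPolynomial (ν × ν) ℚ)) a.1 a.2) '' E, Set.ext fun g => ?_⟩
    simp only [Set.mem_setOf_eq, dt, Set.forall_mem_image, key]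
  · show _ ∈ G
    rw [mul_one, m2]
    exact hG.2.1
  · have e : qc γ⁻¹ * (a * b⁻¹) * qc γ = qc γ⁻¹ * a * qc γ * (qc γ⁻¹ * b * qc γ)⁻¹ := by
      rw [Matrix.mul_inv_rev, Matrix.mul_inv_rev, inv_eq_right_inv m1, inv_eq_right_inv m2]
      simp only [mul_assoc]
      rw [← mul_assoc (qc γ), m1, one_mul]
    show _ ∈ G
    rw [e]
    exact hG.2.2 _ ha _ hb
  · have c : (Ω * qc γ).map star = Ω.map star * qc γ := by
      ext i j
      simp [mul_apply]
    have k : ∀ (A : Matrix ι ν ℂ) (c : ℂ), A * k = c • A →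
        A * qc γ * (qc γ⁻¹ * k * qc γ) = c • (A * qc γ) := fun A c e => by
      rw [← Matrix.mul_assoc, ← Matrix.mul_assoc, Matrix.mul_assoc A, m1, Matrix.mul_one, e,
        Matrix.smul_mul]
    exact h z _ z0 (k _ _ k1) (by rw [c]; exact k _ _ k2)

end

end Pool.Agent.Lib.MP_5591bc_ag.Pl
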