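import Pool.Agent.Lib.MP_5591bc_ag.Pl.Lam

/-! The monodromy has bounded denominators. -/

namespace Pool.Agent.Lib.MP_5591bc_ag.Pl

open Matrix Polynomial Filter Topology M F A

noncomputable section

variable {σ K : Type*} [Fintype σ] [DecidableEq σ] [Field K] [Algebra K ℂ] {n : ℕ}
  {f : (MvPolynomial σ K)[X]} {T : MvPolynomial σ K} {D : MvPolynomial σ ℂ}
  {W : σ → Matrix (Fin n) (Fin n) (MvPolynomial σ K)} {U U' : Set (σ → ℂ)}
  {P P' : (σ → ℂ) → Matrix (Fin n) (Fin n) ℂ} {L : Matrix (Fin n) (Fin n) (MvPolynomial σ ℂ)}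

/-- `per_ex` with the value at the centre (copy the proof) -/
theorem per_ex2 {s : σ → ℂ} {M : Matrix (Fin n) (Fin n) ℂ} (hM : M.det ≠ 0)
    (h : ∀ j, Lp (ev f s) fun i => M i j) : ∃ (r : ℝ) (P : (σ → ℂ) → Matrix (Fin n) (Fin n) ℂ),
      0 < r ∧ IsPerM (ev f) (Metric.ball s r) P ∧ P s = M := by
  have hg : Continuous fun q : (σ → ℂ) × ℂ => ev f q.1 q.2 := by
    clear h
    induction f using per_ind with
    | hc k => simpa [ev] using continuous_const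
    | hv m => simp only [ev, eval₂_C]; simp; fun_prop
    | hX => simpa [ev] using continuous_snd
    | ha p q hp hq => exact (hp.add hq).congr fun z => by simp [ev]
    | hm p q hp hq => exact (hp.mul hq).congr fun z => by simp [ev]
  choose V hV x y hl e using fun j => lp_pers hg (h j)
  let P : (σ → ℂ) → Matrix (Fin n) (Fin n) ℂ := fun t => Matrix.of fun i j =>
    ∫ u in (0 : ℝ)..1, x j u ^ (i : ℕ) * deriv (x j) u / y j t u
  have hs : P s = M := Matrix.ext fun i j => (e j i).symm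
  have hc : ContinuousAt P s := continuousAt_pi.2 fun i => continuousAt_pi.2 fun j => by
    have := (per_col (a := 1) two_pos (hl j) (hV j) i).1.continuousAt
    simp only [pow_one] at this
    exact this
  have hd : ∀ᶠ t in 𝓝 s, (P t).det ≠ 0 :=
    ((continuous_id.matrix_det.continuousAt.comp hc).eventually_ne (by simpa [hs] using hM))
  obtain ⟨r, r0, hr⟩ := Metric.mem_nhds_iff.1 (hd.and (eventually_all.2 hV))
  exact ⟨r, P, r0, fun t ht => ⟨(hr ht).1, fun j => ⟨_, Metric.isOpen_ball.mem_nhds ht, x j, y j,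
    ⟨(hl j).1, (hl j).2.1, (hl j).2.2.1.mono (Set.prod_mono_left fun a ha => (hr ha).2 j),
      fun a ha => (hl j).2.2.2 a ((hr ha).2 j)⟩, fun _ _ _ => rfl⟩⟩, hs⟩

theorem int_mul (a b : Matrix (Fin n) (Fin n) ℤ) : zc (a * b) = zc a * zc b :=
  Matrix.map_mul (f := Int.castRingHom ℂ)

theorem int_one : zc (1 : Matrix (Fin n) (Fin n) ℤ) = 1 :=
  Matrix.map_one _ Int.cast_zero Int.cast_one

theorem int_inj {a b : Matrix (Fin n) (Fin n) ℤ} (h : zc a = zc b) : a = b :=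
  Matrix.map_injective Int.cast_injective h

theorem int_can {M X Y : Matrix (Fin n) (Fin n) ℂ} (h : M.det ≠ 0) (e : M * X = M * Y) : X = Y := by
  simpa only [← Matrix.mul_assoc, nonsing_inv_mul _ h.isUnit, Matrix.one_mul]
    using congrArg (M⁻¹ * ·) e

theorem int_can2 {M X Y : Matrix (Fin n) (Fin n) ℂ} (h : M.det ≠ 0)
    (e : M * X * Mᵀ = M * Y * Mᵀ) : X = Y := by
  have e' := congrArg Matrix.transpose e
  rw [transpose_mul, transpose_mul _ Mᵀ, transpose_transpose] at e'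
  exact int_can h (transpose_injective (int_can h e'))

theorem int_col {p : ℂ → ℂ} {Λ M N : Matrix (Fin n) (Fin n) ℂ} (h : Bs p Λ M)
    (hN : ∀ j, Lp p fun i => N i j) : ∃ a : Matrix (Fin n) (Fin n) ℤ, N = M * zc a := by
  obtain ⟨q, rfl, hq, -⟩ := h
  choose γ hγ using fun j => hq.int _ (hN j)
  exact ⟨.of fun i j => γ j i, Matrix.ext fun i j => congrFun (hγ j) i⟩

theorem Bs.det {p : ℂ → ℂ} {Λ M : Matrix (Fin n) (Fin n) ℂ} (h : Bs p Λ M) : M.det ≠ 0 :=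
  h.choose_spec.2.1.det

theorem Bs.col {p : ℂ → ℂ} {Λ M : Matrix (Fin n) (Fin n) ℂ} (h : Bs p Λ M) (j : Fin n) :
    Lp p fun i => M i j := by
  obtain ⟨q, rfl, hq, -⟩ := h
  exact hq.col j

/-- the columns of `X` are a basis of the lattice of periods -/
def ZI (p : ℂ → ℂ) (Λ X : Matrix (Fin n) (Fin n) ℂ) : Prop :=
  ∃ (M : Matrix (Fin n) (Fin n) ℂ) (a b : Matrix (Fin n) (Fin n) ℤ),
    Bs p Λ M ∧ a * b = 1 ∧ X = M * zc a

/-- two `Bs` matrices at one point are integral multiples of each other -/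
theorem zi_iff {p : ℂ → ℂ} {Λ X : Matrix (Fin n) (Fin n) ℂ} (h : ZI p Λ X)
    (γ : Matrix (Fin n) (Fin n) ℂ) :
    ZI p Λ (X * γ) ↔ ∃ a b : Matrix (Fin n) (Fin n) ℤ, a * b = 1 ∧ γ = zc a := by
  obtain ⟨M, a, b, hM, e, rfl⟩ := h
  refine ⟨fun ⟨M', a', b', hM', e', h'⟩ => ?_, fun ⟨a', b', e', h'⟩ => ⟨M, a * a', b' * b, hM, ?_,
    by rw [h', int_mul, Matrix.mul_assoc]⟩⟩
  · obtain ⟨c, hc⟩ := int_col hM hM'.col
    obtain ⟨c', hc'⟩ := int_col hM' hM.col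
    have e1 : c * c' = 1 := int_inj (int_can hM.det (by
      rw [int_mul, ← Matrix.mul_assoc, ← hc, ← hc', int_one, Matrix.mul_one]))
    have e2 := mul_eq_one_comm.1 e
    rw [hc, Matrix.mul_assoc, Matrix.mul_assoc] at h'
    refine ⟨b * (c * a'), b' * (c' * a), ?_, ?_⟩
    · rw [mul_assoc, mul_assoc, ← mul_assoc a', e', one_mul, ← mul_assoc c, e1, one_mul, e2]
    · rw [int_mul, int_mul, ← int_can hM.det h', ← Matrix.mul_assoc, ← int_mul, e2, int_one,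
        Matrix.one_mul]
  · rw [mul_assoc, ← mul_assoc a', e', one_mul, e]

/-- `Q` from `per_ex2` at a `Bs` matrix; its form (`lam_J`) is `J0`; at `w`, `Q w = M a` with
`a J0 aᵀ = J0`, so `det a = ± 1` -/
theorem zi_ex (D0 : D ≠ 0) (J1 : (J0 n).det ≠ 0) (hB : ∀ z, MvPolynomial.eval z D ≠ 0 →
      ∃ M, Bs (ev f z) (L.map (MvPolynomial.eval z)) M) {t : σ → ℂ}
    (t0 : MvPolynomial.eval t D ≠ 0) : ∃ (r : ℝ) (Q : (σ → ℂ) → Matrix (Fin n) (Fin n) ℂ), 0 < r ∧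
      IsPerM (ev f) (Metric.ball t r) Q ∧ ∀ w ∈ Metric.ball t r, MvPolynomial.eval w D ≠ 0 →
        ZI (ev f w) (L.map (MvPolynomial.eval w)) (Q w) := by
  obtain ⟨M, hM⟩ := hB t t0
  obtain ⟨r, Q, r0, hQ, e⟩ := per_ex2 hM.det hM.col
  obtain ⟨J, -, hJ⟩ := lam_J D0 hB Metric.isOpen_ball (convex_ball t r).isPreconnected hQ
  have e1 : qc J = zc (J0 n) := int_can2 hM.det (by
    rw [hM.choose_spec.2.2, ← hJ t (Metric.mem_ball_self r0), e])
  refine ⟨r, Q, r0, hQ, fun w hw w0 => ?_⟩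
  obtain ⟨N, hN⟩ := hB w w0
  obtain ⟨a, ha⟩ := int_col hN (hQ.lp hw)
  have e2 : a * J0 n * aᵀ = J0 n := int_inj (int_can2 hN.det (by
    rw [hN.choose_spec.2.2, ← hJ w hw, e1, ha, int_mul, int_mul, transpose_mul]
    simp only [Matrix.mul_assoc, zc, transpose_map]))
  have e3 := congrArg det e2
  rw [det_mul, det_mul, det_transpose, mul_right_comm, mul_eq_right₀ J1] at e3
  exact ⟨N, a, a⁻¹, hN, mul_nonsing_inv _ (IsUnit.of_mul_eq_one _ e3), ha⟩

/-- as `Fm.inv` (`off_ind` also on `U` itself) -/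
theorem zi_inv (h : Fm f T W D) (J1 : (J0 n).det ≠ 0) (hB : ∀ z, MvPolynomial.eval z D ≠ 0 →
      ∃ M, Bs (ev f z) (L.map (MvPolynomial.eval z)) M) (ho : IsOpen U) (hc : IsPreconnected U)
    (hP : IsPerM (ev f) U P) {s : σ → ℂ} (hs : s ∈ U) (s0 : MvPolynomial.eval s D ≠ 0)
    {A : Matrix (Fin n) (Fin n) ℂ} (hA : ZI (ev f s) (L.map (MvPolynomial.eval s)) (P s * A))
    (k : ContM U P U' P') : ∀ t ∈ U', MvPolynomial.eval t D ≠ 0 →
      ZI (ev f t) (L.map (MvPolynomial.eval t)) (P' t * A) := by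
  have hF := per_fund hP h.pf
  have key : ∀ {V Q z}, ContM U P V Q → z ∈ V → MvPolynomial.eval z D ≠ 0 →
      ZI (ev f z) (L.map (MvPolynomial.eval z)) (Q z * A) → ∀ t ∈ V, MvPolynomial.eval t D ≠ 0 →
      ZI (ev f t) (L.map (MvPolynomial.eval t)) (Q t * A) := fun {V Q z} k z1 z0 hz t ht t0 => by
    obtain ⟨o, c, -⟩ := E.cont_dom ho hc (fun i j t ht => ((hF t ht).2 i j).1) k
    refine off_ind (I := fun t => ZI (ev f t) (L.map (MvPolynomial.eval t)) (Q t * A)) o c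
      (fun t ht t0 => ?_) z1 ht z0 t0 hz
    obtain ⟨V', v1, -, v2, -, v3⟩ := Z.cont_fund h.T0 ho hc hF k ht (h.ok t t0).1
    obtain ⟨r, Y, r0, hY, y⟩ := zi_ex h.D0 J1 hB t0
    have m := Metric.mem_ball_self (x := t) r0
    have e := E.fund_uniq v1 Metric.isOpen_ball v3 (per_fund hY h.pf) v2 m (h.ok t t0).1
    filter_upwards [e, Metric.ball_mem_nhds t r0, mon_ev t t0] with w w1 w2 w3
    rw [w1, Matrix.mul_assoc, zi_iff (y w w2 w3), ← zi_iff (y t m t0), ← Matrix.mul_assoc,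
      ← e.self_of_nhds]
  induction k with
  | base => exact key .base hs s0 hA
  | step U1 U2 P1 P2 s' h1 o2 c2 d2 s1 s2 e ih =>
    have o1 := (E.cont_dom ho hc (fun i j t ht => ((hF t ht).2 i j).1) h1).1
    obtain ⟨z, z0, ⟨z1, z2⟩, z3⟩ := ((off_freq h.D0 s').and_eventually
      ((Eventually.and (o1.mem_nhds s1) (o2.mem_nhds s2)).and e)).exists
    exact key (.step _ _ _ _ s' h1 o2 c2 d2 s1 s2 e) z2 z0 (z3 ▸ ih z z1 z0)

/-- `P s = M a₀`, `A = (zc a₀)⁻¹`, `d = (det a₀) ^ 2`; `Fm.two` gives a rational `γ` near `t`, and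
at a point off `D` it is `a₀⁻¹ u a₀` with `u` integral -/
theorem int_two (h : Fm f T W D) (J1 : (J0 n).det ≠ 0) (hB : ∀ z, MvPolynomial.eval z D ≠ 0 →
      ∃ M, Bs (ev f z) (L.map (MvPolynomial.eval z)) M) (ho : IsOpen U) (hc : IsPreconnected U)
    (hP : IsPerM (ev f) U P) {s : σ → ℂ} (hs : s ∈ U) : ∃ d : ℕ, 0 < d ∧
      ∀ U₁ P₁ U₂ P₂, ContM U P U₁ P₁ → ContM U P U₂ P₂ → ∀ t ∈ U₁, t ∈ U₂ →
        ∃ γ : Matrix (Fin n) (Fin n) ℤ, ∀ᶠ z in 𝓝 t, (d : ℂ) • P₂ z = P₁ z * γ.map Int.cast := by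
  have hF := per_fund hP h.pf
  obtain ⟨v, v0, v1⟩ := ((off_freq h.D0 s).and_eventually (ho.mem_nhds hs)).exists
  obtain ⟨M, hM⟩ := hB v v0
  obtain ⟨a, ha⟩ := int_col hM (hP.lp v1)
  have ed : (zc a).det = (a.det : ℂ) := ((Int.castRingHom ℂ).map_det a).symm
  have a0 : (zc a).det ≠ 0 := fun e => (hP v v1).1 (by rw [ha, det_mul, e, mul_zero])
  have hA : ZI (ev f v) (L.map (MvPolynomial.eval v)) (P v * (zc a)⁻¹) := ⟨M, 1, 1, hM, one_mul 1,
    by rw [ha, Matrix.mul_assoc, mul_nonsing_inv _ a0.isUnit, int_one]⟩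
  refine ⟨a.det.natAbs ^ 2, pow_pos (Int.natAbs_pos.2 fun e => a0 (by rw [ed, e, Int.cast_zero])) 2,
    fun U₁ P₁ U₂ P₂ k₁ k₂ t t1 t2 => ?_⟩
  obtain ⟨γ, -, e⟩ := h.two ho hc hP ho hc hP k₁ k₂ t1 t2
  have o1 := (E.cont_dom ho hc (fun i j t ht => ((hF t ht).2 i j).1) k₁).1
  have o2 := (E.cont_dom ho hc (fun i j t ht => ((hF t ht).2 i j).1) k₂).1
  obtain ⟨z, z0, ⟨z1, z2⟩, z3⟩ := ((off_freq h.D0 t).and_eventually
    ((Eventually.and (o1.mem_nhds t1) (o2.mem_nhds t2)).and e)).exists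
  obtain ⟨u, -, -, hu⟩ := (zi_iff (zi_inv h J1 hB ho hc hP v1 v0 hA k₁ z z1 z0)
    (zc a * γ.map (algebraMap ℚ ℂ) * (zc a)⁻¹)).1 (by
      convert zi_inv h J1 hB ho hc hP v1 v0 hA k₂ z z2 z0 using 1
      rw [z3]
      simp only [Matrix.mul_assoc, nonsing_inv_mul_cancel_left _ _ a0.isUnit])
  refine ⟨a.det • (a.adjugate * (u * a)), e.mono fun w hw => ?_⟩
  have e1 : zc a.adjugate = (zc a).adjugate := (Int.castRingHom ℂ).map_adjugate a
  have e2 : zc (a.det • (a.adjugate * (u * a))) = (a.det : ℂ) • zc (a.adjugate * (u * a)) :=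
    Matrix.ext fun i j => Int.cast_mul _ _
  change _ = P₁ w * zc _
  rw [hw, e2, int_mul, int_mul, ← hu, e1, nonsing_inv_mul_cancel_right _ _ a0.isUnit,
    ← Matrix.mul_assoc, adjugate_mul, ed, smul_mul_assoc, Matrix.one_mul, smul_smul,
    Matrix.mul_smul, Nat.cast_pow, ← Int.cast_natCast, ← Int.cast_pow, Int.natAbs_sq, Int.cast_pow,
    sq]

end

end Pool.Agent.Lib.MP_5591bc_ag.Pl
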