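import Mathlib

/-! Infinitesimal Torelli along the hyperelliptic locus: the algebra. -/

namespace Pool.Agent.Lib.MP_5591bc_ag.Pl

open Polynomial

theorem isoa_deg {p S q w : ℂ[X]} {g : ℕ} (hn : p.natDegree = 2 * g + 1)
    (hS : S.natDegree ≤ 3 * g) (hw : w.degree < g)
    (h : S = 2 * derivative q * p - q * derivative p + p * w) : q.natDegree ≤ g := by
  by_contra hc
  obtain ⟨e, he⟩ : ∃ e, q.natDegree = e + 1 := ⟨q.natDegree - 1, by omega⟩
  have q0 : q.coeff (e + 1) ≠ 0 := by
    rw [← he]
    exact leadingCoeff_ne_zero.2 fun h0 => by simp [h0] at he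
  have p0 : p.coeff (2 * g + 1) ≠ 0 := by
    rw [← hn]
    exact leadingCoeff_ne_zero.2 fun h0 => by simp [h0] at hn
  have h1 : (derivative q * p).coeff (e + (2 * g + 1)) =
      q.coeff (e + 1) * (e + 1) * p.coeff (2 * g + 1) := by
    rw [coeff_mul_add_eq_of_natDegree_le ((natDegree_derivative_le q).trans (by omega)) hn.le,
      coeff_derivative]
  have h2 : (q * derivative p).coeff (e + (2 * g + 1)) =
      q.coeff (e + 1) * (p.coeff (2 * g + 1) * (2 * g + 1)) := by
    rw [show e + (2 * g + 1) = e + 1 + 2 * g by ring, coeff_mul_add_eq_of_natDegree_le he.le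
      ((natDegree_derivative_le p).trans (by omega)), coeff_derivative]
    push_cast
    rfl
  have h3 : (p * w).coeff (e + (2 * g + 1)) = 0 := by
    rcases eq_or_ne w 0 with rfl | w0
    · simp
    · have := (natDegree_lt_iff_degree_lt w0).2 hw
      exact coeff_eq_zero_of_natDegree_lt (natDegree_mul_le.trans_lt (by omega))
  have h4 := congrArg (coeff · (e + (2 * g + 1))) h
  simp only [coeff_add, coeff_sub, mul_assoc, coeff_ofNat_mul] at h4
  rw [h1, h2, h3, coeff_eq_zero_of_natDegree_lt (by omega)] at h4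
  have h5 : q.coeff (e + 1) * p.coeff (2 * g + 1) * (2 * (e + 1) - (2 * g + 1)) = 0 := by
    linear_combination -h4
  have h6 := (mul_eq_zero.1 h5).resolve_left (mul_ne_zero q0 p0)
  have h7 : 2 * (e + 1) = 2 * g + 1 := by exact_mod_cast sub_eq_zero.1 h6
  omega

/-- `2 q' p - q p'` has degree `deg q + 2 g` (the leading coefficient has the odd factor
`2 deg q - 2 g - 1`), so `deg (q i) ≤ g`. `p` divides `(X * q i - q (i + 1)) * p'`, so
`q (i + 1) = X * q i`, so `deg (q 0) ≤ 1`; `q 0` vanishes at `a` and `b`, so `p` divides `R`. -/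
theorem iso_alg {p R : ℂ[X]} {g : ℕ} (g0 : 0 < g) (hs : p.Separable) (hn : p.natDegree = 2 * g + 1)
    (hR : R.natDegree ≤ 2 * g) (q w : ℕ → ℂ[X]) (hw : ∀ i < g, (w i).degree < g)
    (h : ∀ i < g, X ^ i * R = 2 * derivative (q i) * p - q i * derivative p + p * w i) {a b : ℂ}
    (ab : a ≠ b) (ha : p.eval a = 0 ∧ R.eval a = 0) (hb : p.eval b = 0 ∧ R.eval b = 0) :
    R = 0 := by
  have d : ∀ i < g, (q i).natDegree ≤ g := fun i hi =>
    isoa_deg hn (natDegree_mul_le.trans (by rw [natDegree_X_pow]; omega)) (hw i hi) (h i hi)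
  have s : ∀ i < g, q i = X ^ i * q 0 := by
    intro i
    induction i with
    | zero => simp
    | succ i ih =>
      intro hi
      have h1 : p ∣ (X * q i - q (i + 1)) * derivative p :=
        ⟨2 * (X * derivative (q i) - derivative (q (i + 1))) + (X * w i - w (i + 1)), by
          linear_combination X * h i (by omega) - h (i + 1) hi⟩
      have h2 := eq_zero_of_dvd_of_natDegree_lt (IsCoprime.dvd_of_dvd_mul_right hs h1) (by
        have h3 := natDegree_sub_le (X * q i) (q (i + 1))
        have h4 : (X * q i).natDegree ≤ _ := natDegree_mul_le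
        have h5 := d i (by omega)
        have h6 := d (i + 1) hi
        rw [natDegree_X] at h4
        omega)
      rw [← sub_eq_zero.1 h2, ih (by omega), pow_succ]
      ring
  have z : ∀ c, p.eval c = 0 ∧ R.eval c = 0 → (q 0).eval c = 0 := fun c hc => by
    have h1 := congrArg (eval c) (h 0 g0)
    have h2 := hs.aeval_derivative_ne_zero (x := c) (by simpa using hc.1)
    simp only [pow_zero, one_mul, eval_add, eval_sub, eval_mul, hc.1, hc.2, mul_zero, zero_mul,
      zero_sub, add_zero, zero_eq_neg, mul_eq_zero] at h1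
    exact h1.resolve_right (by simpa using h2)
  have q0 : q 0 = 0 := by
    by_contra h0
    have h1 := d (g - 1) (by omega)
    rw [s (g - 1) (by omega), natDegree_X_pow_mul _ h0] at h1
    refine h0 (eq_zero_of_natDegree_lt_card_of_eval_eq_zero' _ {a, b} (fun c hc => ?_) ?_)
    · rcases Finset.mem_insert.1 hc with rfl | hc
      · exact z _ ha
      · exact Finset.mem_singleton.1 hc ▸ z _ hb
    · rw [Finset.card_pair ab]
      omega
  refine eq_zero_of_dvd_of_natDegree_lt (p := p) ⟨w 0, ?_⟩ (by omega)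
  simpa [q0] using h 0 g0

end Pool.Agent.Lib.MP_5591bc_ag.Pl
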