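import Pool.Agent.Lib.MP_5591bc_ag.Pl.Set
import Pool.Agent.Lib.MP_5591bc_ag.F.Mon
import Pool.Agent.Lib.MP_5591bc_ag.F.RbG
import Pool.Agent.Lib.MP_5591bc_ag.F.RbA

/-! The polarisation of a branch of the period matrix. -/

namespace Pool.Agent.Lib.MP_5591bc_ag.Pl

open Matrix Polynomial Filter Topology M F A

noncomputable section

variable {σ K : Type*} [Fintype σ] [DecidableEq σ] [Field K] [Algebra K ℂ] {g n : ℕ}
  {f : (MvPolynomial σ K)[X]} {T : MvPolynomial σ K} {D : MvPolynomial σ ℂ}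
  {W : σ → Matrix (Fin n) (Fin n) (MvPolynomial σ K)} {U U' : Set (σ → ℂ)}
  {P P' : (σ → ℂ) → Matrix (Fin n) (Fin n) ℂ} {L : Matrix (Fin n) (Fin n) (MvPolynomial σ ℂ)}

theorem lam_anti (n : ℕ) (S : Type*) [Ring S] :
    ((J0 n).map (Int.cast : ℤ → S))ᵀ = -(J0 n).map Int.cast := by
  ext i j
  have := congrFun₂ (J0_anti n) i j
  simp only [transpose_apply, Matrix.neg_apply] at this
  simp only [transpose_apply, Matrix.neg_apply, Matrix.map_apply, this, Int.cast_neg]

open scoped ComplexOrder in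
/-- the block of zeros is in `Rec`; for the positivity extend `q` by zero -/
theorem bs_rie (hn : n = 2 * g) {r : Fin g → Fin n} (hr : ∀ i, (r i : ℕ) = i) {p : ℂ → ℂ}
    {Λ M : Matrix (Fin n) (Fin n) ℂ} (h : Bs p Λ M) :
    Rie ((J0 n).map Int.cast) (M.submatrix r id) := by
  obtain ⟨q, -, h, -⟩ := h
  have e : ((J0 n).map (Int.cast : ℤ → ℝ)).map Complex.ofReal = zc (J0 n) := by
    ext i j
    simp
  have e1 : (zc (J0 n))ᴴ = -zc (J0 n) := by
    rw [← lam_anti]
    ext i j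
    simp
  have e2 : M.submatrix r id = (1 : Matrix (Fin n) (Fin n) ℂ).submatrix r id * M := by
    ext i j
    simp [Matrix.mul_apply, one_apply]
  unfold Rie
  rw [e]
  constructor
  · obtain ⟨m, h0, -, h2⟩ := h.rc
    ext i j
    have := h2 (r i) (r j)
    rw [h0 _ _ (by have := hr i; have := hr j; have := i.2; have := j.2; omega)] at this
    exact this
  have H : ((-Complex.I) • (M.submatrix r id * zc (J0 n) * (M.submatrix r id)ᴴ)).IsHermitian := by
    rw [IsHermitian, conjTranspose_smul, conjTranspose_mul, conjTranspose_mul,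
      conjTranspose_conjTranspose, e1, Matrix.mul_assoc]
    simp
  refine PosDef.of_dotProduct_mulVec_pos H fun x hx => Complex.lt_def.2 ⟨?_,
    (H.im_star_dotProduct_mulVec_self x).symm⟩
  have ri : Function.Injective r := fun i j c => Fin.ext (by rw [← hr, ← hr, c])
  have := h.pos (star x ᵥ* (1 : Matrix (Fin n) (Fin n) ℂ).submatrix r id) (fun c => hx ?_)
    fun k hk => ?_
  · rw [vecMul_vecMul, ← e2] at this
    rwa [smul_mulVec, dotProduct_smul, smul_eq_mul, Matrix.mul_assoc, ← mulVec_mulVec,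
      ← mulVec_mulVec, dotProduct_mulVec, mulVec_conjTranspose, Complex.zero_re]
  · ext i
    simpa [vecMul, dotProduct, one_apply, ri.eq_iff] using congrFun c (r i)
  · simp only [vecMul, dotProduct]
    refine Finset.sum_eq_zero fun i _ => ?_
    have : r i ≠ k := fun c => by have := hr i; have := i.2; rw [c] at *; omega
    simp [this]

/-- `rec_poly` for `f.map (MvPolynomial.map (algebraMap K ℂ))`, divided by `c ^ N` -/
theorem lam_ex (h : Fm f T W D) (hn : Even n) {c : K} (hc : f.coeff (n + 1) = MvPolynomial.C c)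
    (rb : ∀ p : ℂ[X], p.Separable → p.natDegree = n + 1 → ∃ M : Matrix (Fin n) (Fin n) ℂ, RB p M) :
    ∃ L : Matrix (Fin n) (Fin n) (MvPolynomial σ ℂ), ∀ z, MvPolynomial.eval z D ≠ 0 →
      ∃ M, Bs (ev f z) (L.map (MvPolynomial.eval z)) M := by
  obtain ⟨N, L, hL⟩ := rec_poly (f.map (MvPolynomial.map (algebraMap K ℂ))) hn
  refine ⟨(algebraMap K ℂ c ^ N)⁻¹ • L, fun z hz => ?_⟩
  obtain ⟨-, p, h1, h2, e⟩ := h.ok z hz
  obtain ⟨M, hM⟩ := rb p h1 h2
  have e1 : (f.map (MvPolynomial.map (algebraMap K ℂ))).map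
      (MvPolynomial.aeval z : MvPolynomial σ ℂ →ₐ[ℂ] ℂ) = p := Polynomial.funext fun x => by
    rw [← show ev f z x = _ from congrFun e x, Polynomial.map_map, Polynomial.eval_map]
    congr 1
    exact RingHom.ext fun a => MvPolynomial.aeval_map_algebraMap ℂ z a
  have e2 := congrArg (·.coeff (n + 1)) e1
  have e3 := hL (MvPolynomial.aeval z) _ (e1 ▸ hM.rc)
  simp only [Polynomial.coeff_map, hc, MvPolynomial.map_C, RingHom.coe_coe,
    MvPolynomial.algHom_C, Algebra.algebraMap_self, RingHom.id_apply] at e2 e3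
  have c0 : algebraMap K ℂ c ≠ 0 := by
    rw [e2, ← h2]
    exact leadingCoeff_ne_zero.2 h1.ne_zero
  refine ⟨M, p, e, hM, (inv_smul_smul₀ (pow_ne_zero N c0) _).symm.trans ?_⟩
  rw [e3]
  ext i j
  simp [MvPolynomial.smul_eval]

omit [DecidableEq σ] in
theorem lam_ana {J : Matrix (Fin n) (Fin n) ℂ}
    (hP : ∀ i j, AnalyticOnNhd ℂ (fun t => P t i j) U) (i j : Fin n) :
    AnalyticOnNhd ℂ (fun t => (P t * J * (P t)ᵀ) i j) U := fun t ht => by
  simp only [Matrix.mul_apply, transpose_apply]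
  exact Finset.analyticAt_fun_sum _ fun a _ => (Finset.analyticAt_fun_sum _ fun b _ =>
    (hP i b t ht).fun_mul analyticAt_const).fun_mul (hP j a t ht)

omit [DecidableEq σ] in
theorem lam_id {J : Matrix (Fin n) (Fin n) ℂ} (hc : IsPreconnected U)
    (hP : ∀ i j, AnalyticOnNhd ℂ (fun t => P t i j) U) {s : σ → ℂ} (hs : s ∈ U)
    (h : ∀ᶠ t in 𝓝 s, P t * J * (P t)ᵀ = L.map (MvPolynomial.eval t)) :
    ∀ t ∈ U, P t * J * (P t)ᵀ = L.map (MvPolynomial.eval t) := fun _ ht => Matrix.ext fun i j =>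
  (lam_ana hP i j).eqOn_of_preconnected_of_eventuallyEq
    (fun t _ => AnalyticOnNhd.eval_mvPolynomial (L i j) t trivial) hc hs
    (h.mono fun _ e => congrFun₂ e i j) ht

/-- Off `D`, `P t = M γ` with `γ` integral, so `(P t)⁻¹ L(t) (P t)ᵀ⁻¹ = γ⁻¹ J0 γᵀ⁻¹` is rational;
it is analytic on `U`, constant on a ball (`Set.Countable.isTotallyDisconnected`), so on `U`. -/
theorem lam_J (D0 : D ≠ 0) (hB : ∀ z, MvPolynomial.eval z D ≠ 0 →
      ∃ M, Bs (ev f z) (L.map (MvPolynomial.eval z)) M) (ho : IsOpen U) (hc : IsPreconnected U)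
    (hP : IsPerM (ev f) U P) : ∃ J : Matrix (Fin n) (Fin n) ℚ, Jᵀ = -J ∧
      ∀ t ∈ U, P t * qc J * (P t)ᵀ = L.map (MvPolynomial.eval t) := by
  rcases U.eq_empty_or_nonempty with rfl | ⟨s, hs⟩
  · exact ⟨0, by simp, fun _ h => h.elim⟩
  have an : ∀ i j, AnalyticOnNhd ℂ (fun t => P t i j) U := fun i j t ht => (per_ode hP ht i j).1
  have o : IsOpen (U ∩ {z | MvPolynomial.eval z D ≠ 0}) :=
    ho.inter (isOpen_ne_fun (MvPolynomial.continuous_eval D) continuous_const)
  obtain ⟨z, z0, z1⟩ := ((off_freq D0 s).and_eventually (ho.mem_nhds hs)).exists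
  have := o.baireSpace
  have : Nonempty ↥(U ∩ {z | MvPolynomial.eval z D ≠ 0}) := ⟨⟨z, z1, z0⟩⟩
  obtain ⟨J, u, hu⟩ := nonempty_interior_of_iUnion_of_closed
    (f := fun J : {J : Fin n → Fin n → ℚ // (of J)ᵀ = -of J} =>
      {u : ↥(U ∩ {z | MvPolynomial.eval z D ≠ 0}) |
        P u * qc (of J.1) * (P u)ᵀ = L.map (MvPolynomial.eval u.1)})
    (fun J => isClosed_eq (continuous_matrix fun i j =>
      ((lam_ana an i j).continuousOn.mono Set.inter_subset_left).domRestrict)
      (continuous_matrix fun i j =>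
        (MvPolynomial.continuous_eval (L i j)).comp continuous_subtype_val))
    (Set.eq_univ_of_forall fun u => by
      obtain ⟨M, p, e, hM, e1⟩ := hB u u.2.2
      choose γ hγ using fun j => hM.int _ (e ▸ hP.lp u.2.1 j)
      obtain ⟨G, e2⟩ : ∃ G : Matrix (Fin n) (Fin n) ℚ, P u = M * qc G :=
        ⟨of fun i j => γ j i, Matrix.ext fun i j => (congrFun (hγ j) i).trans (by
          simp [mulVec, dotProduct, Matrix.mul_apply])⟩
      have mp : ∀ A B : Matrix (Fin n) (Fin n) ℚ, qc (A * B) = qc A * qc B := fun A B =>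
        Matrix.map_mul (f := Rat.castHom ℂ)
      have G0 : IsUnit G.det := Ne.isUnit fun c => (hP _ u.2.1).1 (by
        rw [e2, det_mul, show (qc G).det = (G.det : ℂ) from ((Rat.castHom ℂ).map_det G).symm, c,
          Rat.cast_zero, mul_zero])
      refine Set.mem_iUnion.2 ⟨⟨G⁻¹ * (J0 n).map Int.cast * G⁻¹ᵀ, ?_⟩, ?_⟩
      · change (G⁻¹ * (J0 n).map Int.cast * G⁻¹ᵀ)ᵀ = -(G⁻¹ * (J0 n).map Int.cast * G⁻¹ᵀ)
        rw [transpose_mul, transpose_mul, transpose_transpose, lam_anti, Matrix.mul_assoc]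
        simp
      · change P u * qc (G⁻¹ * (J0 n).map Int.cast * G⁻¹ᵀ) * (P u)ᵀ = _
        have e3 : G * (G⁻¹ * (J0 n).map Int.cast * G⁻¹ᵀ) * Gᵀ = (J0 n).map Int.cast := by
          rw [← Matrix.mul_assoc, ← Matrix.mul_assoc, mul_nonsing_inv _ G0, Matrix.one_mul,
            Matrix.mul_assoc, ← transpose_mul, mul_nonsing_inv _ G0, transpose_one, Matrix.mul_one]
        have e4 : zc (J0 n) = qc ((J0 n).map Int.cast) := by
          ext i j
          simp
        rw [← e1, e4, e2, transpose_mul, ← transpose_map]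
        conv_rhs => rw [← e3, mp, mp]
        simp only [Matrix.mul_assoc])
  refine ⟨_, J.2, lam_id hc an u.2.1 ?_⟩
  rw [← o.isOpenEmbedding_subtypeVal.map_nhds_eq u, eventually_map]
  exact mem_interior_iff_mem_nhds.1 hu

/-- the identity theorem along the chain -/
theorem lam_cont (ho : IsOpen U) {J : Matrix (Fin n) (Fin n) ℂ}
    (h : ∀ t ∈ U, P t * J * (P t)ᵀ = L.map (MvPolynomial.eval t)) (k : ContM U P U' P') :
    ∀ t ∈ U', P' t * J * (P' t)ᵀ = L.map (MvPolynomial.eval t) := by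
  induction k with
  | base => exact h
  | step U1 U2 P1 P2 s h1 o2 c2 d2 s1 s2 e ih =>
    have o1 : IsOpen U1 := by
      cases h1 with
      | base => exact ho
      | step _ _ _ _ _ _ o => exact o
    refine lam_id c2 d2 s2 ?_
    filter_upwards [e, o1.mem_nhds s1] with t a1 a2
    exact a1 ▸ ih t a2

end

end Pool.Agent.Lib.MP_5591bc_ag.Pl
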