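import Pool.Agent.Lib.MP_5591bc_ag.Pl.Prj
import Pool.Agent.Lib.MP_5591bc_ag.Pl.Grp

/-! The derivative of the period map lies in the group. -/

namespace Pool.Agent.Lib.MP_5591bc_ag.Pl

open Matrix A Filter Topology

noncomputable section

variable {ι ν : Type*} [Fintype ι] [DecidableEq ι] [Fintype ν] [DecidableEq ν]
  {J : Matrix ν ν ℝ} {G : Set (Matrix ν ν ℂ)} {Ω : ℂ → Matrix ι ν ℂ} {Ω' : Matrix ι ν ℂ} {s : ℂ}

theorem lim_mul {α β γ X : Type*} [Fintype β] {l : Filter X} {f : X → Matrix α β ℂ}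
    {g : X → Matrix β γ ℂ} {a : Matrix α β ℂ} {b : Matrix β γ ℂ} (hf : Tendsto f l (𝓝 a))
    (hg : Tendsto g l (𝓝 b)) : Tendsto (fun x => f x * g x) l (𝓝 (a * b)) :=
  tendsto_pi_nhds.2 fun i => tendsto_pi_nhds.2 fun j => tendsto_finsetSum _ fun k _ =>
    (tendsto_pi_nhds.1 (tendsto_pi_nhds.1 hf i) k).mul
      (tendsto_pi_nhds.1 (tendsto_pi_nhds.1 hg k) j)

theorem lim_sl {α β : Type*} {Ω : ℂ → Matrix α β ℂ} {Ω' : Matrix α β ℂ}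
    (hd : ∀ i j, HasDerivAt (Ω · i j) (Ω' i j) s) :
    ContinuousAt Ω s ∧ Tendsto (fun t => (t - s)⁻¹ • (Ω t - Ω s)) (𝓝[≠] s) (𝓝 Ω') :=
  ⟨continuousAt_pi.2 fun i => continuousAt_pi.2 fun j => (hd i j).continuousAt,
    tendsto_pi_nhds.2 fun i => tendsto_pi_nhds.2 fun j => hasDerivAt_iff_tendsto_slope.1 (hd i j)⟩

theorem lim_W {M : Matrix ι ν ℂ} (h : Rie J M) :
    M * (cx J * Mᴴ * (M * cx J * Mᴴ)⁻¹) = 1 := by
  rw [← Matrix.mul_assoc, ← Matrix.mul_assoc, mul_nonsing_inv _ (prj_det h).isUnit]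

theorem lim_piW {M : Matrix ι ν ℂ} (h : Rie J M) :
    prj J M * (cx J * Mᴴ * (M * cx J * Mᴴ)⁻¹) = cx J * Mᴴ * (M * cx J * Mᴴ)⁻¹ := by
  rw [prj, Matrix.mul_assoc _ M, lim_W h, Matrix.mul_one]

/-- `π = prj J (Ω s)`, `ε = t - s`, `c ≠ 0`. Conjugate `1 + prj J (Ω t)` by `π + (c / ε) (1 - π)`:
`(π + (ε / c) (1 - π)) * (J Ωᴴ (Ω J Ωᴴ)⁻¹) t * (Ω t * π + (c / ε) • Ω t * (1 - π))` tends to
`π + c Θ` (`Ω s * (1 - π) = 0`, `π * J Ωᴴ = J Ωᴴ` at `s`), `Θ * π = 0`, `π * Θ = Θ`; then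
`(1 - π / 2) (1 + π + c Θ) = 1 + (c / 2) Θ`. -/
theorem lim_th (hG : QGrp G) (hd : ∀ i j, HasDerivAt (Ω · i j) (Ω' i j) s)
    (hR : ∀ᶠ t in 𝓝 s, Rie J (Ω t) ∧ Tor G (prj J (Ω t))) (c : ℂ) :
    1 + c • (cx J * (Ω s)ᴴ * (Ω s * cx J * (Ω s)ᴴ)⁻¹ * Ω' * (1 - prj J (Ω s))) ∈ G := by
  obtain rfl | c0 := eq_or_ne c 0
  · simpa using hG.2.1
  obtain ⟨hs, hT⟩ := hR.self_of_nhds
  obtain ⟨cΩ, tS⟩ := lim_sl hd
  obtain ⟨cW, cP⟩ := prj_cont cΩ hs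
  have pW := lim_piW hs
  have pp := prj_sq hs
  have pl : Ω s * (1 - prj J (Ω s)) = 0 := by
    rw [Matrix.mul_sub, Matrix.mul_one, prj_l hs, sub_self]
  have eP : ∀ t, prj J (Ω t) = cx J * (Ω t)ᴴ * (Ω t * cx J * (Ω t)ᴴ)⁻¹ * Ω t := fun t => rfl
  generalize hW : (fun t => cx J * (Ω t)ᴴ * (Ω t * cx J * (Ω t)ᴴ)⁻¹) = W at cW
  have hW' : ∀ t, cx J * (Ω t)ᴴ * (Ω t * cx J * (Ω t)ᴴ)⁻¹ = W t := fun t => congrFun hW t
  simp only [hW'] at pW eP ⊢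
  have cP' : Tendsto (fun t => prj J (Ω t)) (𝓝[≠] s) (𝓝 (prj J (Ω s))) :=
    cP.tendsto.mono_left nhdsWithin_le_nhds
  generalize prj J (Ω s) = π at hT pW pp pl cP' ⊢
  have pΘ : π * (W s * Ω' * (1 - π)) = W s * Ω' * (1 - π) := by
    rw [← Matrix.mul_assoc, ← Matrix.mul_assoc, pW]
  have Θp : W s * Ω' * (1 - π) * π = 0 := by
    rw [Matrix.mul_assoc, sub_mul, one_mul, pp, sub_self, Matrix.mul_zero]
  have tD : Tendsto (fun t => ((t - s) / (2 * c)) • (1 : Matrix ν ν ℂ) +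
      (1 - (t - s) / (2 * c)) • π) (𝓝[≠] s) (𝓝 π) :=
    (Continuous.tendsto' (by fun_prop) _ _ (by simp)).mono_left nhdsWithin_le_nhds
  have t1 := (tD.mul ((cP'.mul_const π).add (((lim_mul (cW.tendsto.mono_left nhdsWithin_le_nhds)
    tS).mul_const (1 - π)).const_smul (2 * c)))).const_add 1
  generalize W s * Ω' * (1 - π) = Θ at pΘ Θp t1 ⊢
  have ΘΘ : Θ * Θ = 0 := by
    calc Θ * Θ = Θ * (π * Θ) := by rw [pΘ]
      _ = 0 := by rw [← mul_assoc, Θp, zero_mul]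
  have e : ((1 : ℂ) • (1 : Matrix ν ν ℂ) + (2⁻¹ - 1 : ℂ) • π) * (1 + π * (π * π + (2 * c) • Θ)) =
      1 + c • Θ := by
    simp only [mul_add, add_mul, mul_smul_comm, smul_mul_assoc, one_mul, mul_one, pp, pΘ]
    module
  have d : (1 + π * (π * π + (2 * c) • Θ)).det ≠ 0 := fun k => by
    have e' : (1 + c • Θ) * (1 - c • Θ) = 1 := by
      simp only [mul_sub, add_mul, mul_smul_comm, smul_mul_assoc, one_mul, mul_one, ΘΘ]
      module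
    have := congrArg det e'
    rw [det_mul, ← e, det_mul, k] at this
    simp at this
  rw [← e]
  refine qg_mul hG (hT _ _ (by norm_num) one_ne_zero) (qg_lim hG t1 ?_ d)
  filter_upwards [hR.filter_mono nhdsWithin_le_nhds, self_mem_nhdsWithin] with t ht ts
  have ε0 : t - s ≠ 0 := sub_ne_zero.2 ts
  have c2 : 2 * c ≠ 0 := mul_ne_zero two_ne_zero c0
  have k : W t * ((t - s)⁻¹ • (Ω t - Ω s)) * (1 - π) = (t - s)⁻¹ • (prj J (Ω t) * (1 - π)) := by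
    rw [Matrix.mul_assoc, Matrix.smul_mul, Matrix.sub_mul, pl, sub_zero, Matrix.mul_smul, eP,
      Matrix.mul_assoc]
  have m := qg_mul hG (qg_mul hG (hT 1 _ one_ne_zero (div_ne_zero ε0 c2))
    (ht.2 2 1 two_ne_zero one_ne_zero)) (hT 1 _ one_ne_zero (div_ne_zero c2 ε0))
  convert m using 1
  rw [k]
  generalize prj J (Ω t) = P
  simp only [mul_add, add_mul, mul_sub, mul_smul_comm, smul_mul_assoc, one_mul, mul_one, pp,
    mul_assoc]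
  match_scalars <;> field_simp <;> ring

/-- `Θ = vecMulVec x v` with `x = J Ωᴴ (Ω J Ωᴴ)⁻¹ a`. The derivative of `Ω J Ωᵀ = 0` gives
`vecMulVec a b = vecMulVec b a` for `b = Ω J η = Ω J v`, so `b = κ a`, and `J v = κ x` by `cx_inj`
(`conj Ω J v = conj Ω π J η = 0` by `prj_J`, `prj_c`); `spT J v c = 1 + (c κ) • Θ`. -/
theorem lim_tv (hJ : Jᵀ = -J) (hc : Fintype.card ν = 2 * Fintype.card ι) (hG : QGrp G)
    (hd : ∀ i j, HasDerivAt (Ω · i j) (Ω' i j) s)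
    (hR : ∀ᶠ t in 𝓝 s, Rie J (Ω t) ∧ Tor G (prj J (Ω t))) {B : Matrix ι ι ℂ} {a : ι → ℂ}
    {η : ν → ℂ} (a0 : a ≠ 0) (h : Ω' = B * Ω s + vecMulVec a η) :
    Tv G (cx J) (η ᵥ* (1 - prj J (Ω s))) := by
  intro c
  have hs := hR.self_of_nhds.1
  obtain ⟨cΩ, tS⟩ := lim_sl hd
  have r0 : Ω s * cx J * (Ω s)ᵀ = 0 := hs.1
  have tr : ∀ {f : ℂ → Matrix ι ν ℂ} {x}, Tendsto f (𝓝[≠] s) (𝓝 x) →
      Tendsto (fun t => (f t)ᵀ) (𝓝[≠] s) (𝓝 xᵀ) := fun k =>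
    (continuous_id.matrix_transpose.tendsto _).comp k
  have z : Ω' * cx J * (Ω s)ᵀ + Ω s * cx J * Ω'ᵀ = 0 := by
    refine tendsto_nhds_unique_of_eventuallyEq ((lim_mul (lim_mul tS tendsto_const_nhds)
      (tr (cΩ.tendsto.mono_left nhdsWithin_le_nhds))).add (lim_mul tendsto_const_nhds (tr tS)))
        tendsto_const_nhds ?_
    filter_upwards [hR.filter_mono nhdsWithin_le_nhds] with t ht
    have rt : Ω t * cx J * (Ω t)ᵀ = 0 := ht.1.1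
    simp only [transpose_smul, transpose_sub, Matrix.smul_mul, Matrix.mul_smul, Matrix.sub_mul,
      Matrix.mul_sub, rt, r0]
    module
  have cJ : (cx J)ᵀ = -cx J := by
    ext i j
    simpa using congrArg Complex.ofReal (congrFun (congrFun hJ i) j)
  obtain ⟨κ, hκ⟩ : ∃ κ : ℂ, Ω s *ᵥ cx J *ᵥ η = κ • a := by
    obtain ⟨k, hk⟩ := Function.ne_iff.1 a0
    have e1 : η ᵥ* (cx J * (Ω s)ᵀ) = -(Ω s *ᵥ cx J *ᵥ η) := by
      rw [← vecMul_vecMul, vecMul_transpose, ← mulVec_transpose, cJ, neg_mulVec, mulVec_neg]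
    rw [h, Matrix.add_mul, Matrix.add_mul, transpose_add, transpose_mul, Matrix.mul_add,
      ← Matrix.mul_assoc _ _ Bᵀ, r0, Matrix.mul_assoc B, Matrix.mul_assoc B, r0,
      Matrix.mul_assoc (vecMulVec a η), vecMulVec_mul, e1, transpose_vecMulVec, mul_vecMulVec,
      ← mulVec_mulVec] at z
    generalize Ω s *ᵥ cx J *ᵥ η = b at z
    refine ⟨b k / a k, funext fun i => ?_⟩
    have := congrFun (congrFun z i) k
    simp [vecMulVec_apply] at this hk ⊢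
    field_simp
    linear_combination this
  have e2 : cx J *ᵥ (η ᵥ* (1 - prj J (Ω s))) = prj J (Ω s) *ᵥ cx J *ᵥ η := by
    rw [← mulVec_transpose, mulVec_mulVec, ← prj_J hJ hc hs, mulVec_mulVec]
  have e3 : cx J *ᵥ (η ᵥ* (1 - prj J (Ω s))) =
      κ • (cx J * (Ω s)ᴴ * (Ω s * cx J * (Ω s)ᴴ)⁻¹) *ᵥ a := by
    refine sub_eq_zero.1 (cx_inj hJ hc hs ?_ ?_)
    · rw [mulVec_sub, e2, mulVec_mulVec, prj_l hs, hκ, mulVec_smul, mulVec_mulVec, lim_W hs,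
        one_mulVec, sub_self]
    · rw [mulVec_sub, e2, mulVec_mulVec, prj_c hs, mulVec_smul, mulVec_mulVec a, ← lim_piW hs,
        ← Matrix.mul_assoc, prj_c hs]
      simp
  convert lim_th hG hd hR (c * κ) using 1
  rw [spT, e3, Matrix.mul_assoc _ Ω', h, Matrix.add_mul, Matrix.mul_assoc B, Matrix.mul_sub (Ω s),
    Matrix.mul_one, prj_l hs, sub_self, Matrix.mul_zero, zero_add, vecMulVec_mul, mul_vecMulVec,
    smul_vecMulVec, mul_smul]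

end

end Pool.Agent.Lib.MP_5591bc_ag.Pl
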