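import Pool.Agent.Lib.MP_5591bc_ag.Pl.Fin

/-! Over a base of dimension one no condition on the Mumford-Tate group is needed. -/

namespace Pool.Agent.Lib.MP_5591bc_ag.Pl

open Matrix Polynomial Filter Topology M F A E Z

noncomputable section

theorem one_card {σ : Type*} [Unique σ] {Q : MvPolynomial σ ℂ} (Q0 : Q ≠ 0) {S : Finset (σ → ℂ)}
    (h : ∀ t ∈ S, MvPolynomial.eval t Q = 0) : S.card ≤ Q.totalDegree := by
  classical
  have p0 : MvPolynomial.uniqueAlgEquiv ℂ σ Q ≠ 0 := (EmbeddingLike.map_ne_zero_iff).2 Q0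
  have e : ∀ t : σ → ℂ, (MvPolynomial.uniqueAlgEquiv ℂ σ Q).eval (t default) =
      MvPolynomial.eval t Q := fun t => by
    clear p0 h Q0
    induction Q using MvPolynomial.induction_on with
    | C a => simp
    | add p q hp hq => rw [map_add, eval_add, hp, hq, map_add]
    | mul_X p i hp => rw [map_mul, eval_mul, hp, map_mul, Unique.eq_default i]; simp
  rw [← Finset.card_image_of_injective S (Equiv.funUnique σ ℂ).injective]
  refine (card_le_degree_of_subset_roots fun z hz => ?_).trans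
    (natDegree_le_iff_coeff_eq_zero.2 fun N hN => ?_ : (MvPolynomial.uniqueAlgEquiv ℂ σ Q).natDegree ≤ _)
  · obtain ⟨t, ht, rfl⟩ := Finset.mem_image.1 hz
    exact (mem_roots p0).2 ((e t).trans (h t ht))
  · rw [MvPolynomial.coeff_uniqueAlgEquiv]
    exact MvPolynomial.coeff_eq_zero_of_totalDegree_lt (by
      rwa [show ∑ i ∈ (Finsupp.single (default : σ) N).support, Finsupp.single (default : σ) N i = N
        from Finsupp.sum_single_index (h := fun _ m => m) rfl])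

variable {K : Type} [Field K] [NumberField K] [Algebra K ℂ] {f₀ : K[X]} {k g n : ℕ}

theorem hyp_off (hs : Squarefree f₀) (h2 : 2 ≤ f₀.natDegree) (hk : 0 < k) (hn : n = 2 * g)
    (hd : f₀.natDegree + k = n + 1) {r : Fin g → Fin n} (hr : ∀ i, (r i : ℕ) = i) :
    ∃ C : ℕ, ∀ (δ d : ℕ) (H : ℝ), 2 ≤ H → ∀ S : Finset (Fin k → ℂ),
      (∀ t ∈ S, Function.Injective t ∧ (∀ l, aeval (t l) f₀ ≠ 0) ∧
        (∀ j, ∃ q : ℤ[X], q ≠ 0 ∧ (∀ i, |(q.coeff i : ℝ)| ≤ H) ∧ aeval (t j) q = 0) ∧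
        ∃ (U : Set (Fin k → ℂ)) (P : (Fin k → ℂ) → Matrix (Fin n) (Fin n) ℂ), IsOpen U ∧
          IsPreconnected U ∧ IsPerM (fun t z => aeval z f₀ * ∏ l, (z - t l)) U P ∧ t ∈ U ∧
          (k = 1 ∨ HodgeGen (fun s => (P s).submatrix r id) t) ∧
          ∃ (E : IntermediateField K ℂ) (x : Fin k → E), (∀ j, (x j : ℂ) = t j) ∧
            FiniteDimensional ℚ E ∧ Module.finrank ℚ E ≤ d ∧ ¬ GoodV U P δ x) →
        (S.card : ℝ) ≤ (C * (δ + 2) * d * Real.log H) ^ (C * (δ + 1) ^ (k * n ^ 2)) := by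
  by_cases k1 : k = 1
  · subst k1
    obtain ⟨C, hC⟩ := hyp_all (σ := Fin 1) hs hd
    refine ⟨C, fun δ d H H2 S hS => ?_⟩
    obtain ⟨Q, Q0, Q1, Q2⟩ := hC δ d H H2
    have l0 := Real.log_nonneg (one_le_two.trans H2)
    refine ((Nat.cast_le.2 (one_card Q0 fun t ht => ?_)).trans Q1).trans ?_
    · obtain ⟨-, -, b, U, P, ho, hc, hP, m, -, E, x, hx, e1, e2, hb⟩ := hS t ht
      exact Q2 U P ho hc hP t m b E x hx e1 e2 hb
    · rw [one_mul]
      gcongr
      norm_num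
  · obtain ⟨C, hC⟩ := hyp_gen hs h2 (⟨0, hk⟩ : Fin k) hn (by rw [Fintype.card_fin, hd]) hr
    rw [Fintype.card_fin] at hC
    refine ⟨C, fun δ d H H2 S hS => hC δ d H H2 S fun t ht => ?_⟩
    obtain ⟨t1, t2, b, U, P, ho, hc, hP, m, hg, h⟩ := hS t ht
    exact ⟨t1, t2, b, U, P, ho, hc, hP, m, hg.resolve_left k1, h⟩

end

end Pool.Agent.Lib.MP_5591bc_ag.Pl
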