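import Pool.Agent.Lib.MP_5591bc_ag.Pl.Set
import Pool.Agent.Lib.MP_5591bc_ag.A.Cx

/-! The Hodge projector. -/

namespace Pool.Agent.Lib.MP_5591bc_ag.Pl

open Matrix A Filter Topology
open scoped ComplexOrder

noncomputable section

variable {ι ν : Type*} [Fintype ι] [DecidableEq ι] [Fintype ν] [DecidableEq ν]
  {J : Matrix ν ν ℝ} {Ω : Matrix ι ν ℂ}

theorem prj_cm {X a b c : Type*} [TopologicalSpace X] [Fintype b] {A : X → Matrix a b ℂ}
    {B : X → Matrix b c ℂ} {s : X} (hA : ContinuousAt A s) (hB : ContinuousAt B s) :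
    ContinuousAt (fun t => A t * B t) s :=
  (continuous_fst.matrix_mul continuous_snd).continuousAt.comp (hA.prodMk hB)

omit [DecidableEq ι] [DecidableEq ν] in
theorem prj_z (h : Rie J Ω) : Ω.map star * cx J * Ωᴴ = 0 := by
  rw [← cxa_star J, ← cxs_tr, ← cxs_mul, ← cxs_mul, h.1, cxs_zero]

theorem prj_det (h : Rie J Ω) : (Ω * cx J * Ωᴴ).det ≠ 0 := by
  intro e
  have := h.2.isUnit
  rw [isUnit_iff_isUnit_det, det_smul, e, mul_zero] at this
  exact not_isUnit_zero this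

theorem prj_l (h : Rie J Ω) : Ω * prj J Ω = Ω := by
  simp only [prj, ← Matrix.mul_assoc]
  rw [mul_nonsing_inv _ (prj_det h).isUnit, Matrix.one_mul]

omit [DecidableEq ν] in
theorem prj_c (h : Rie J Ω) : Ω.map star * prj J Ω = 0 := by
  simp only [prj, ← Matrix.mul_assoc]
  rw [prj_z h, Matrix.zero_mul, Matrix.zero_mul]

theorem prj_sq (h : Rie J Ω) : prj J Ω * prj J Ω = prj J Ω := by
  conv_lhs => enter [1]; rw [prj]
  rw [Matrix.mul_assoc, prj_l h, prj]

/-- `cx_inj` on the columns of `π + conj π - 1` -/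
theorem prj_bar (hJ : Jᵀ = -J) (hc : Fintype.card ν = 2 * Fintype.card ι) (h : Rie J Ω) :
    (prj J Ω).map star = 1 - prj J Ω := by
  refine h.cxa_ext hc ?_ ?_
  · have e := congrArg (·.map star) (prj_c h)
    simp only [cxs_mul, cxs_st, cxs_zero] at e
    rw [e, Matrix.mul_sub, prj_l h, Matrix.mul_one, sub_self]
  · rw [← cxs_mul, prj_l h, Matrix.mul_sub, prj_c h, Matrix.mul_one, sub_zero]

/-- `cx_inj` on the columns of the difference -/
theorem prj_J (hJ : Jᵀ = -J) (hc : Fintype.card ν = 2 * Fintype.card ι) (h : Rie J Ω) :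
    prj J Ω * cx J = cx J * (1 - prj J Ω)ᵀ := by
  refine h.cxa_ext hc ?_ ?_
  · rw [← Matrix.mul_assoc, prj_l h, transpose_sub, transpose_one, ← Matrix.mul_assoc,
      Matrix.mul_sub, Matrix.mul_one, prj, transpose_mul, ← Matrix.mul_assoc, h.1, Matrix.zero_mul,
      sub_zero]
  · rw [← Matrix.mul_assoc, prj_c h, Matrix.zero_mul, ← prj_bar hJ hc h, prj, cxs_mul,
      transpose_mul, ← Matrix.mul_assoc, ← Matrix.mul_assoc]
    exact ((congrArg (· * _) (prj_z h)).trans (Matrix.zero_mul _)).symm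

/-- `v = β conj Ω`, and the form is positive definite -/
theorem prj_pos (hJ : Jᵀ = -J) (hc : Fintype.card ν = 2 * Fintype.card ι) (h : Rie J Ω)
    {v : ν → ℂ} (v0 : v ≠ 0) (hv : v ᵥ* prj J Ω = 0) : toBilin' (cx J) (star v) v ≠ 0 := by
  obtain ⟨β, e⟩ : ∃ β, v = Ωᴴ *ᵥ β := by
    refine ⟨v ᵥ* (cx J * Ωᴴ * (Ω * cx J * Ωᴴ)⁻¹).map star, ?_⟩
    have e1 := congrArg (v ᵥ* ·) (prj_bar hJ hc h)
    simp only [vecMul_sub, vecMul_one, hv, sub_zero] at e1
    rw [prj, cxs_mul, ← vecMul_vecMul, ← mulVec_transpose] at e1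
    exact e1.symm
  have b0 : β ≠ 0 := fun k => v0 (by rw [e, k, mulVec_zero])
  have := (h.2.dotProduct_mulVec_pos b0).ne'
  rw [smul_mulVec, dotProduct_smul] at this
  rw [toBilin'_apply', e, star_mulVec, conjTranspose_conjTranspose, ← dotProduct_mulVec,
    mulVec_mulVec, mulVec_mulVec]
  exact right_ne_zero_of_smul this

theorem prj_cont {X : Type*} [TopologicalSpace X] {Ω : X → Matrix ι ν ℂ} {s : X}
    (hΩ : ContinuousAt Ω s) (h : Rie J (Ω s)) :
    ContinuousAt (fun t => cx J * (Ω t)ᴴ * (Ω t * cx J * (Ω t)ᴴ)⁻¹) s ∧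
      ContinuousAt (fun t => prj J (Ω t)) s := by
  have h1 : ContinuousAt (fun t => (Ω t)ᴴ) s :=
    (continuous_id.matrix_conjTranspose.continuousAt).comp hΩ
  have h2 : ContinuousAt (fun t => cx J * (Ω t)ᴴ * (Ω t * cx J * (Ω t)ᴴ)⁻¹) s :=
    prj_cm (prj_cm continuousAt_const h1) (ContinuousAt.comp (f := fun t => Ω t * cx J * (Ω t)ᴴ)
      (continuousAt_matrix_inv _ (by
        rw [Ring.inverse_eq_inv']
        exact continuousAt_inv₀ (prj_det h))) (prj_cm (prj_cm hΩ continuousAt_const) h1))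
  exact ⟨h2, prj_cm h2 hΩ⟩

/-- the Mumford-Tate group contains the maps `h z` -/
theorem prj_mtg (h : Rie J Ω) {z : ℂ} (z0 : z ≠ 0) :
    star z • (1 : Matrix ν ν ℂ) + (z - star z) • prj J Ω ∈ MTG Ω := by
  refine Set.mem_sInter.2 fun G hG => hG.2 z _ z0 ?_ ?_
  · rw [Matrix.mul_add, Matrix.mul_smul, Matrix.mul_smul, Matrix.mul_one, prj_l h, ← add_smul,
      add_sub_cancel]
  · rw [Matrix.mul_add, Matrix.mul_smul, Matrix.mul_smul, Matrix.mul_one, prj_c h, smul_zero,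
      add_zero]

end

end Pool.Agent.Lib.MP_5591bc_ag.Pl
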