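import Pool.Agent.Lib.MP_5591bc_ag.A.Set
import Pool.Agent.Lib.MP_5591bc_ag.A.DefM
import Pool.Agent.Lib.MP_5591bc_ag.A.SpA
import Pool.Agent.Lib.MP_5591bc_ag.F.RbD

/-! Shared definitions: the Hodge projector, and good bases of the lattice of periods. -/

namespace Pool.Agent.Lib.MP_5591bc_ag.Pl

open Matrix A F

noncomputable section

variable {ι ν : Type*} [Fintype ι] [DecidableEq ι] [Fintype ν] [DecidableEq ν]

/-- the projector on the row space of `Ω` along its conjugate -/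
def prj (J : Matrix ν ν ℝ) (Ω : Matrix ι ν ℂ) : Matrix ν ν ℂ :=
  cx J * Ωᴴ * (Ω * cx J * Ωᴴ)⁻¹ * Ω

/-- `G` contains the complex torus of the projector `π` -/
def Tor (G : Set (Matrix ν ν ℂ)) (π : Matrix ν ν ℂ) : Prop :=
  ∀ z w : ℂ, z ≠ 0 → w ≠ 0 → w • (1 : Matrix ν ν ℂ) + (z - w) • π ∈ G

/-- `G` contains all transvections along `v` -/
def Tv (G : Set (Matrix ν ν ℂ)) (J : Matrix ν ν ℂ) (v : ν → ℂ) : Prop := ∀ a, spT J v a ∈ G

/-- an integral matrix as a complex matrix -/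
abbrev zc {α β : Type*} (A : Matrix α β ℤ) : Matrix α β ℂ := A.map Int.cast

/-- a basis of the lattice of periods of `y ^ 2 = g(x)` with the matrix of residues `Λ` -/
def Bs (g : ℂ → ℂ) {n : ℕ} (Λ M : Matrix (Fin n) (Fin n) ℂ) : Prop :=
  ∃ p : Polynomial ℂ, g = p.eval ∧ RB p M ∧ M * zc (J0 n) * Mᵀ = Λ

end

end Pool.Agent.Lib.MP_5591bc_ag.Pl
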