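import Mathlib

/-! The matrix of the recursion for the derivatives of the holomorphic periods. -/

namespace Pool.Agent.Lib.MP_5591bc_ag.Pl

/-- the coefficients of `(x ^ i - τ ^ i) / (2 (x - τ))` -/
noncomputable def ksB (g : ℕ) (τ : ℂ) : Matrix (Fin g) (Fin g) ℂ :=
  .of fun i k => if k < i then τ ^ ((i : ℕ) - 1 - k) / 2 else 0

end Pool.Agent.Lib.MP_5591bc_ag.Pl
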